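import Pool.Agent.Lib.MP_8a4e59_co.G.Stm
import Pool.Agent.Lib.MP_8a4e59_co.C.CloseC

set_option autoImplicit false

/-!
(G1) Mass, equidistribution and tail of the Bohr weights. (helper37)
-/

namespace Pool.Agent.APP

open Finset

set_option maxHeartbeats 1000000 in
theorem p_G1 : S_G1 := by
  classical
  intro N τ Θ K r q H Y D m hN hK hr hq hτ hD hH hYR hres
  have q0 : (0 : ℝ) < q := by exact_mod_cast hq
  obtain ⟨b0, b1, -, b4⟩ := t_bet K r (insert (1 / (4 * N)) Θ) hK hr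
  have hbw : ∀ x, 0 ≤ bw N Θ K r q x ∧ bw N Θ K r q x ≤ 1 := by
    intro x
    unfold bw wgt
    split_ifs
    · exact ⟨b0 _, b1 _⟩
    · exact ⟨le_refl _, by norm_num⟩
  have hbwe : ∀ x ∈ Finset.Icc (1 : ℤ) ((⌊N / q⌋₊ : ℕ) : ℤ),
      bw N Θ K r q x = bet K r (insert (1 / (4 * N)) Θ) ((q : ℝ) * x) := by
    intro x hx
    rw [Finset.mem_Icc] at hx
    unfold bw wgt
    rw [if_pos hx]
  refine ⟨hbw, ?_, ?_, ?_⟩
  · have h1 := t_mass N Θ K r q hK hr hq hYR
    have h2 : bm N Θ K r q = mass (fun x => bet K r (insert (1 / (4 * N)) Θ) ((q : ℝ) * x)) ⌊N / q⌋₊ := by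
      unfold bm mass
      exact Finset.sum_congr rfl hbwe
    rw [h2]
    exact h1
  · obtain ⟨k, c, v, hc0, hc1, hv, hexp⟩ := t_bexp K r (insert (1 / (4 * N)) Θ) hK hr
    apply t_C3 k c (fun i => (q : ℝ) * ∑ θ ∈ insert (1 / (4 * N)) Θ, (v i θ : ℝ) * θ)
      (bw N Θ K r q) ⌊N / q⌋₊ Y D m τ hc0 hc1 _ hτ hD
    · intro i e he heY hco a ha
      apply hres e he heY hco a ha (v i)
      intro θ _
      refine (hv i θ).trans ?_
      exact_mod_cast hH
    · intro x hx1 hx2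
      rw [hbwe x (Finset.mem_Icc.2 ⟨hx1, hx2⟩), hexp]
      apply Finset.sum_congr rfl
      intro i _
      congr 2
      ring
  · intro τs hτs
    have hcard : ((Finset.Icc (1 : ℤ) ((⌊N / q⌋₊ : ℕ) : ℤ)).card : ℝ) ≤ N / q := by
      rw [Int.card_Icc]
      have h1 : (((⌊N / q⌋₊ : ℕ) : ℤ) + 1 - 1).toNat = ⌊N / q⌋₊ := by omega
      rw [h1]
      exact Nat.floor_le (by positivity)
    have tail : ∀ S : Finset ℤ, S ⊆ Finset.Icc (1 : ℤ) ((⌊N / q⌋₊ : ℕ) : ℤ) →
        (∀ t ∈ S, ¬ ∀ θ ∈ insert (1 / (4 * N)) Θ, nn (θ * ((q : ℝ) * t)) ≤ τs) →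
        ∑ t ∈ S, bw N Θ K r q t ≤ (1 / 4) ^ r * (N / q) := by
      intro S hS hS2
      calc ∑ t ∈ S, bw N Θ K r q t
          ≤ ∑ t ∈ S, (1 / 4 : ℝ) ^ r := by
            apply Finset.sum_le_sum
            intro t ht
            rw [hbwe t (hS ht)]
            apply b4
            have h2 := hS2 t ht
            simp only [not_forall, not_le] at h2
            obtain ⟨θ, hθ, h3⟩ := h2
            refine ⟨θ, hθ, hτs.trans ?_⟩
            gcongr
        _ = (S.card : ℝ) * (1 / 4 : ℝ) ^ r := by rw [Finset.sum_const, nsmul_eq_mul]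
        _ ≤ (N / q) * (1 / 4 : ℝ) ^ r := by
            gcongr
            refine le_trans ?_ hcard
            exact_mod_cast Finset.card_le_card hS
        _ = (1 / 4) ^ r * (N / q) := by ring
    apply tail
    · intro t ht
      simp only [Finset.mem_filter] at ht
      exact ht.1
    · intro t ht
      simp only [Finset.mem_filter] at ht
      exact ht.2

end Pool.Agent.APP
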