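import Pool.Agent.Lib.MP_8a4e59_co.G.Stm
import Pool.Agent.Lib.MP_8a4e59_co.C.CloseC
import Pool.Agent.Lib.MP_8a4e59_co.C.P.C4
import Pool.Agent.Lib.MP_8a4e59_co.D.P.C6

set_option autoImplicit false

/-!
(G2) Main term at level `Q₀`. (helper37)
-/

namespace Pool.Agent.APP

open Finset

set_option maxHeartbeats 1000000 in
theorem g2_of (hC6 : S_C6) : S_G2 := by
  classical
  intro A N ρY ρ α fl τ Q₀ Θ K r q m D Y D₀ k₀ hN hρY hρ hρ4 hα hα1 hfl hfl1 hr hq hqm hm hτ hqD hK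
    hQ₀ hflat hEqui hD₀D hD₀Y hD₀τ h100 hQD hnum
  have q0 : (0 : ℝ) < q := by exact_mod_cast hq
  set n₂ := ⌊N / q⌋₊ with hn₂
  set BYc := ((bohr N Θ ρY).card : ℝ) with hBYc
  have hBY0 : 0 ≤ BYc := Nat.cast_nonneg _
  set X := bm N Θ K r q with hX
  have hK1 : 1 ≤ K := by
    have h1 : (64 : ℝ) ≤ K := by
      refine le_trans ?_ hK
      rw [le_div_iff₀ hρ]; linarith
    have h2 : (1 : ℝ) ≤ K := by linarith
    exact_mod_cast h2
  have hbet := t_bet K r (insert (1 / (4 * N)) Θ) hK1 hr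
  have hb0 : ∀ x, 0 ≤ bw N Θ K r q x := by
    intro x
    unfold bw wgt
    split_ifs
    · exact hbet.1 _
    · exact le_refl _
  have hX0 : 0 ≤ X := by
    rw [hX]; unfold bm mass
    exact Finset.sum_nonneg (fun x _ => hb0 x)
  have hα3 : 0 < α ^ 3 := by positivity
  obtain ⟨kk, c, eb, hc0, hc1, heb, hE⟩ := hEqui
  have key : ∀ T ∈ (PQ Q₀ m).powerset, T.card ≤ k₀ + 1 → ∀ r' : ℤ,
      |cls (fun x => bw N Θ K r q x * TT A 0 (bohr N Θ ρY) (q * x)) n₂ (∏ p ∈ T, p) r' -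
        α ^ 3 * BYc * X / ((∏ p ∈ T, p : ℕ) : ℝ)| ≤
      20 * fl * (α ^ 3 * BYc * X / ((∏ p ∈ T, p : ℕ) : ℝ)) := by
    intro T hT hTc r'
    rw [Finset.mem_powerset] at hT
    have hTp : ∀ p ∈ T, p.Prime ∧ ¬ p ∣ m ∧ (p : ℝ) ≤ Q₀ := by
      intro p hp
      have h1 := hT hp
      unfold PQ at h1
      rw [Finset.mem_filter, Finset.mem_Icc] at h1
      exact ⟨h1.2.1, h1.2.2, (Nat.le_floor_iff (by linarith)).1 h1.1.2⟩
    set e := ∏ p ∈ T, p with he
    have he1 : 1 ≤ e := by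
      rw [he]
      exact Nat.one_le_iff_ne_zero.2 (Finset.prod_ne_zero_iff.2 (fun p hp => (hTp p hp).1.ne_zero))
    have e0 : (0 : ℝ) < e := by exact_mod_cast he1
    have heD0 : e ≤ D₀ := by
      have h1 : (e : ℝ) ≤ Q₀ ^ (k₀ + 1) := by
        rw [he]
        push_cast
        calc ∏ p ∈ T, (p : ℝ) ≤ ∏ p ∈ T, Q₀ :=
              Finset.prod_le_prod (fun p _ => Nat.cast_nonneg p) (fun p hp => (hTp p hp).2.2)
          _ = Q₀ ^ T.card := by rw [Finset.prod_const]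
          _ ≤ Q₀ ^ (k₀ + 1) := pow_le_pow_right₀ hQ₀ hTc
      have h2 : (e : ℝ) ≤ D₀ := h1.trans hQD
      exact_mod_cast h2
    have hco : e.Coprime m := by
      rw [he]
      apply Nat.Coprime.prod_left
      intro p hp
      exact (Nat.Prime.coprime_iff_not_dvd (hTp p hp).1).2 (hTp p hp).2.1
    have heD0R : (e : ℝ) ≤ D₀ := by exact_mod_cast heD0
    -- the distribution of the weight
    have hcls : |cls (bw N Θ K r q) n₂ e r' - X / e| ≤ fl * (X / e) := by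
      have h1 := hE e he1 (heD0.trans hD₀D) hco r'
      have h2 : univ.filter (fun i => eb i ∣ e) = ∅ := by
        rw [Finset.filter_eq_empty_iff]
        intro i _ hdvd
        rcases heb i with h | h
        · rw [h, zero_dvd_iff] at hdvd; omega
        · have := Nat.le_of_dvd (by omega) hdvd
          omega
      rw [h2, Finset.sum_empty, mul_zero, zero_add] at h1
      refine h1.trans ?_
      calc 1 / τ = ((D₀ : ℝ) / τ) / D₀ := by
            have : (D₀ : ℝ) ≠ 0 := by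
              have : (0 : ℝ) < D₀ := lt_of_lt_of_le e0 heD0R
              exact this.ne'
            field_simp
        _ ≤ (fl * X) / D₀ := by gcongr
        _ ≤ (fl * X) / e := by gcongr
        _ = fl * (X / e) := by ring
    obtain ⟨ρ₃, hρ₃, hρ₃2, hfl3⟩ := hflat e he1 heD0
    have hD1 : (1 : ℝ) ≤ D₀ := by
      have : 1 ≤ D₀ := he1.trans heD0
      exact_mod_cast this
    have h4q : 4 * (q : ℝ) ≤ N := by
      calc 4 * (q : ℝ) = 4 * q * 1 := by ring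
        _ ≤ 4 * q * D₀ := by gcongr
        _ ≤ N := hqD
    have hqe : (q : ℝ) * e ≤ N := by
      calc (q : ℝ) * e ≤ q * D₀ := by gcongr
        _ ≤ 4 * q * D₀ := by nlinarith
        _ ≤ N := hqD
    have h5 := t_C5q A N ρY ρ ρ₃ α fl Θ K r q e hN hρY hρ hρ4 hρ₃ hα hα1 hfl hfl1 hr hq he1 h4q hqe
      hK hρ₃2 hfl3 h100 r' hcls
    have e1 : α ^ 3 * BYc * X / (e : ℝ) = α ^ 3 * ((bohr N Θ ρY).card : ℝ) *
      mass (wgt K r (insert (1 / (4 * N)) Θ) q 1 ⌊N / q⌋₊) ⌊N / q⌋₊ / e := rfl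
    rw [e1]
    exact h5
  have h6 := hC6 n₂ m k₀ (fun x => bw N Θ K r q x * TT A 0 (bohr N Θ ρY) (q * x))
    (α ^ 3 * BYc * X) (20 * fl) (PQ Q₀ m) (fun x => mul_nonneg (hb0 x) (by unfold TT; positivity))
    (by positivity) (by positivity)
    (by
      intro p hp
      unfold PQ at hp
      rw [Finset.mem_filter] at hp
      exact hp.2)
    key
  refine h6.trans ?_
  calc α ^ 3 * BYc * X * VP (PQ Q₀ m) * (2 * (∑ p ∈ PQ Q₀ m, 1 / (p : ℝ)) ^ (k₀ + 1) /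
          ((k₀ + 1).factorial : ℝ) + 20 * fl * ∏ p ∈ PQ Q₀ m, (1 + 1 / (p : ℝ)))
      = α ^ 3 * BYc * X * (VP (PQ Q₀ m) * (2 * (∑ p ∈ PQ Q₀ m, 1 / (p : ℝ)) ^ (k₀ + 1) /
          ((k₀ + 1).factorial : ℝ) + 20 * fl * ∏ p ∈ PQ Q₀ m, (1 + 1 / (p : ℝ)))) := by ring
    _ ≤ α ^ 3 * BYc * X * (1 / 4) := by gcongr
    _ = α ^ 3 * BYc * X / 4 := by ring

theorem p_G2 : S_G2 := g2_of (p_C6 p_C4)

end Pool.Agent.APP
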