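import Pool.Agent.Lib.MP_8a4e59_co.G.Stm

set_option autoImplicit false

/-! (G3) from level `Q₀` to level `Q`. (helper45) -/

namespace Pool.Agent.APP

open Finset

lemma g3_inv_one_le {m : ℕ} {Q : ℝ} {p : ℕ} (hp : p ∈ PQ Q m) : 1 ≤ (1 - 1 / (p : ℝ))⁻¹ := by
  unfold PQ at hp
  rw [Finset.mem_filter] at hp
  have h2 : (2 : ℝ) ≤ p := by exact_mod_cast hp.2.1.two_le
  have h3 : 0 < 1 / (p : ℝ) := by positivity
  have h4 : 1 / (p : ℝ) ≤ 1 / 2 := one_div_le_one_div_of_le (by norm_num) h2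
  apply (one_le_inv₀ (by linarith)).2
  linarith

lemma g3_one_le_VP (Q : ℝ) (m : ℕ) : 1 ≤ VP (PQ Q m) := by
  unfold VP
  have h : ∀ p ∈ PQ Q m, (1 : ℝ) ≤ (1 - 1 / (p : ℝ))⁻¹ := fun p hp => g3_inv_one_le hp
  calc (1 : ℝ) = ∏ _p ∈ PQ Q m, (1 : ℝ) := by simp
    _ ≤ ∏ p ∈ PQ Q m, (1 - 1 / (p : ℝ))⁻¹ := Finset.prod_le_prod (fun _ _ => zero_le_one) h

lemma g3_PQ_sub {Q₀ Q : ℝ} (h : Q₀ ≤ Q) (m : ℕ) : PQ Q₀ m ⊆ PQ Q m := by
  unfold PQ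
  intro p hp
  rw [Finset.mem_filter, Finset.mem_Icc] at hp ⊢
  exact ⟨⟨hp.1.1, hp.1.2.trans (Nat.floor_le_floor h)⟩, hp.2⟩

lemma g3_VP_mono {Q₀ Q : ℝ} (h : Q₀ ≤ Q) (m : ℕ) : VP (PQ Q₀ m) ≤ VP (PQ Q m) := by
  unfold VP
  rw [← Finset.prod_sdiff (g3_PQ_sub h m)]
  have h1 : (1 : ℝ) ≤ ∏ p ∈ PQ Q m \ PQ Q₀ m, (1 - 1 / (p : ℝ))⁻¹ := by
    calc (1 : ℝ) = ∏ _p ∈ PQ Q m \ PQ Q₀ m, (1 : ℝ) := by simp
      _ ≤ ∏ p ∈ PQ Q m \ PQ Q₀ m, (1 - 1 / (p : ℝ))⁻¹ :=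
        Finset.prod_le_prod (fun _ _ => zero_le_one)
          (fun p hp => g3_inv_one_le (Finset.mem_sdiff.1 hp).1)
  have h2 : (0 : ℝ) ≤ ∏ p ∈ PQ Q₀ m, (1 - 1 / (p : ℝ))⁻¹ :=
    Finset.prod_nonneg (fun p hp => zero_le_one.trans (g3_inv_one_le hp))
  calc ∏ p ∈ PQ Q₀ m, (1 - 1 / (p : ℝ))⁻¹ = 1 * ∏ p ∈ PQ Q₀ m, (1 - 1 / (p : ℝ))⁻¹ := (one_mul _).symm
    _ ≤ _ := mul_le_mul_of_nonneg_right h1 h2

lemma g3_nuP_bd (Q : ℝ) (m : ℕ) (m' : ℕ) (x : ℤ) :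
    0 ≤ nuP (PQ Q m) m' x ∧ nuP (PQ Q m) m' x ≤ VP (PQ Q m) := by
  have hV := g3_one_le_VP Q m
  unfold nuP
  split_ifs
  · constructor <;> linarith
  · constructor
    · simp
    · simp; linarith

lemma g3_G_bd {Q₀ Q : ℝ} (h : Q₀ ≤ Q) (m m' : ℕ) (x : ℤ) :
    |nuP (PQ Q m) m' x - nuP (PQ Q₀ m) m' x| ≤ VP (PQ Q m) := by
  have h1 := g3_nuP_bd Q m m' x
  have h2 := g3_nuP_bd Q₀ m m' x
  have h3 := g3_VP_mono h m
  rw [abs_le]
  constructor <;> linarith [h1.1, h1.2, h2.1, h2.2]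

lemma g3_W7_div (b w : ℤ → ℝ) (c : ℝ) (z : Fin 7 → ℤ) :
    W7 b (fun t => w t / c) z = W7 b w z / c ^ 6 := by
  unfold W7
  by_cases hc : c = 0
  · subst hc; simp
  · field_simp

lemma g3_num {D τ n Nq : ℝ} {c : ℝ} (hD : 0 ≤ D) (hτ : 0 < τ) (hN : 0 < Nq) (hn : Nq / 2 ≤ n)
    (hc : 0 ≤ c) : 2 * D * c * D / (τ * n) ≤ 4 * D * c * D / (τ * Nq) := by
  have hn0 : 0 < n := by linarith
  rw [div_le_div_iff₀ (by positivity) (by positivity)]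
  have h1 : 0 ≤ 2 * D * c * D * τ := by positivity
  have h2 : Nq ≤ 2 * n := by linarith
  calc 2 * D * c * D * (τ * Nq) = 2 * D * c * D * τ * Nq := by ring
    _ ≤ 2 * D * c * D * τ * (2 * n) := mul_le_mul_of_nonneg_left h2 h1
    _ = 4 * D * c * D * (τ * n) := by ring

lemma g3_mono {a V S u v U W P x y : ℝ} (hV : 0 ≤ V) (hu : 0 ≤ u) (huU : u ≤ U) (hv : 0 ≤ v)
    (hvW : v ≤ W) (hP : 0 ≤ P) (hx : 0 ≤ x) (hxy : x ≤ y) :
    a + 256 * V ^ 8 * (S + 7 * (1 + (u + v)) ^ 7 * (P + x)) ≤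
      a + 256 * V ^ 8 * (S + 7 * (1 + (U + W)) ^ 7 * (P + y)) := by
  have hU : 0 ≤ U := hu.trans huU
  have hW : 0 ≤ W := hv.trans hvW
  gcongr

theorem p_G3 (hD2 : S_D2) : S_G3 := by
  classical
  intro CD hCD hD3 A N ρY ε₀ ε τs pi τ α Q₀ Q Θ K r Ks rs q m D Y k hN hρ0 hρ1 hε0 hε1 hε hτs h4τs hα0 hα1
    hK hr hKs hrs hq hm hY hτ hreg hQ0 hQ hQD hDτ h2N hpi hb hw hbm hwm hEb hEw htail hbox hfin
  set n : ℕ := ⌊N / q⌋₊ with hn
  set b := bw N Θ K r q with hbdef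
  set w := bw N Θ Ks rs q with hwdef
  set X := bm N Θ K r q with hX
  set M := bm N Θ Ks rs q with hM
  have hXm : mass b n = X := rfl
  have hMm : mass w n = M := rfl
  have hq0 : (0 : ℝ) < q := by exact_mod_cast hq
  have hNq0 : 0 < N / q := by linarith
  have hn1 : (n : ℝ) ≤ N / q := Nat.floor_le hNq0.le
  have hn2 : N / q - 1 < n := by
    have := Nat.lt_floor_add_one (N / (q : ℝ))
    rw [← hn] at this
    linarith
  have hn3 : N / q / 2 ≤ n := by linarith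
  have hn4 : 1 ≤ n := by
    have : (0 : ℝ) < n := by linarith
    have : 0 < n := by exact_mod_cast this
    omega
  have hR0 : (0 : ℝ) < (Θ.card : ℝ) + 1 := by positivity
  have hYR : 0 < YR K r Θ.card := by
    unfold YR
    have h1 : (0 : ℝ) < K := by exact_mod_cast hK
    have h2 : (0 : ℝ) < r := by exact_mod_cast hr
    positivity
  have hYRs : 0 < YR Ks rs Θ.card := by
    unfold YR
    have h1 : (0 : ℝ) < Ks := by exact_mod_cast hKs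
    have h2 : (0 : ℝ) < rs := by exact_mod_cast hrs
    positivity
  have hX0 : 0 < X := lt_of_lt_of_le (div_pos hNq0 hYR) hbm
  have hM0 : 0 < M := lt_of_lt_of_le (div_pos hNq0 hYRs) hwm
  have hNX : N / q ≤ YR K r Θ.card * X := by
    have := (div_le_iff₀ hYR).1 hbm
    linarith
  have hNM : N / q ≤ YR Ks rs Θ.card * M := by
    have := (div_le_iff₀ hYRs).1 hwm
    linarith
  have hnX : n / X ≤ YR K r Θ.card := by
    rw [div_le_iff₀ hX0]; linarith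
  have hnM : n / M ≤ YR Ks rs Θ.card := by
    rw [div_le_iff₀ hM0]; linarith
  have hV1 : 1 ≤ VP (PQ Q m) := g3_one_le_VP Q m
  -- the box bound
  have hDn : (D : ℝ) / τ ≤ n := by
    have : (D : ℝ) / τ = 2 * (D : ℝ) / τ / 2 := by ring
    rw [this]; linarith
  have h1 := hD3 n D m Y k τ Q₀ Q b w hQ0 hQ hQD hn4 hY hm hτ hDn (fun x => (hb x).1) (fun x => (hw x).1)
    (by rw [hXm]; exact hX0) (by rw [hMm]; exact hM0) hEb hEw
  rw [hXm, hMm] at h1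
  have hP8 : 0 ≤ ∏ p ∈ PQ Q m, (1 + 8 / (p : ℝ)) := Finset.prod_nonneg (fun p _ => by positivity)
  have hS : 0 ≤ ∑ p ∈ PQ Q m, 1 / (p : ℝ) := Finset.sum_nonneg (fun p _ => by positivity)
  have hn0 : (0 : ℝ) < n := by exact_mod_cast hn4
  have h2 : CD / Q₀ + 256 * VP (PQ Q m) ^ 8 *
      (2 * (8 * ∑ p ∈ PQ Q m, 1 / (p : ℝ)) ^ (k + 1) / ((k + 1).factorial : ℝ) +
        7 * (1 + (6 * n / X + 6 * n / M)) ^ 7 *
          (2 * (8 ^ 64 / Real.sqrt Y) * ∏ p ∈ PQ Q m, (1 + 8 / (p : ℝ)) + 2 * (D : ℝ) * 8 ^ (k + 1) * D / (τ * n))) ≤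
      ε ^ 8 := by
    refine le_trans ?_ hbox
    have e1 : 6 * (n : ℝ) / X ≤ 6 * YR K r Θ.card := by
      rw [mul_div_assoc]; linarith
    have e2 : 6 * (n : ℝ) / M ≤ 6 * YR Ks rs Θ.card := by
      rw [mul_div_assoc]; linarith
    have e4 : (0 : ℝ) ≤ 6 * n / X := div_nonneg (by linarith) hX0.le
    have e5 : (0 : ℝ) ≤ 6 * n / M := div_nonneg (by linarith) hM0.le
    have e6 : (0 : ℝ) ≤ 2 * (8 ^ 64 / Real.sqrt Y) * ∏ p ∈ PQ Q m, (1 + 8 / (p : ℝ)) :=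
      mul_nonneg (mul_nonneg zero_le_two (div_nonneg (pow_nonneg (by norm_num) _) (Real.sqrt_nonneg _))) hP8
    have e7 : (0 : ℝ) ≤ 8 ^ (k + 1) := pow_nonneg (by norm_num) _
    have e8 : (0 : ℝ) ≤ 2 * (D : ℝ) * 8 ^ (k + 1) * D / (τ * n) :=
      div_nonneg (mul_nonneg (mul_nonneg (mul_nonneg zero_le_two (Nat.cast_nonneg _)) e7) (Nat.cast_nonneg _))
        (mul_nonneg hτ.le hn0.le)
    exact g3_mono (by linarith) e4 e1 e5 e2 e6 e8 (g3_num (Nat.cast_nonneg _) hτ hNq0 hn3 e7)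
  have h3 : ∑ z ∈ Box7 n, W7 b w z * ∏ o : Fin 3 → Bool,
      (nuP (PQ Q m) m (LL o z) - nuP (PQ Q₀ m) m (LL o z)) ≤ ε ^ 8 * (X * M ^ 6) := by
    refine (le_abs_self _).trans (h1.trans ?_)
    rw [mul_comm]
    exact mul_le_mul_of_nonneg_right h2 (mul_nonneg hX0.le (pow_nonneg hM0.le _))
  -- apply D2
  have hpi0 : 0 ≤ pi := le_trans (by positivity) hpi
  have hsum : ∑ t ∈ Finset.Icc (1 : ℤ) n, w t = M := rfl
  have h4 := hD2 A N ρY ε₀ ε τs pi (VP (PQ Q m)) Θ K r q (fun t => w t / M)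
    (fun x => nuP (PQ Q m) m x - nuP (PQ Q₀ m) m x) hN hρ0 hρ1 hε0 hε1 hε hτs h4τs hpi0
    (by linarith) hK hr hq (by
      rw [le_div_iff₀ hq0] at h2N
      linarith) hreg (fun x => g3_G_bd hQ m m x)
    (fun t _ => div_nonneg (hw t).1 hM0.le)
    (by rw [← Finset.sum_div, hsum, div_self hM0.ne'])
    (by
      rw [← Finset.sum_div, div_le_iff₀ hM0]
      refine htail.trans ?_
      calc (1 / 4 : ℝ) ^ rs * (N / q) ≤ (1 / 4 : ℝ) ^ rs * (YR Ks rs Θ.card * M) :=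
            mul_le_mul_of_nonneg_left hNM (by positivity)
        _ = ((1 / 4 : ℝ) ^ rs * YR Ks rs Θ.card) * M := by ring
        _ ≤ pi * M := mul_le_mul_of_nonneg_right hpi hM0.le)
    (by
      have e1 : ∑ z ∈ Box7 n, W7 b (fun t => w t / M) z * ∏ o : Fin 3 → Bool,
          (nuP (PQ Q m) m (LL o z) - nuP (PQ Q₀ m) m (LL o z)) =
          (∑ z ∈ Box7 n, W7 b w z * ∏ o : Fin 3 → Bool,
          (nuP (PQ Q m) m (LL o z) - nuP (PQ Q₀ m) m (LL o z))) / M ^ 6 := by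
        rw [Finset.sum_div]
        apply Finset.sum_congr rfl
        intro z _
        rw [g3_W7_div]; ring
      have e2 : ∑ z ∈ Box7 n, W7 b (fun t => w t / M) z * ∏ o : Fin 3 → Bool,
          (nuP (PQ Q m) m (LL o z) - nuP (PQ Q₀ m) m (LL o z)) ≤ ε ^ 8 * X := by
        rw [e1, div_le_iff₀ (by positivity)]
        linarith
      exact e2)
  refine h4.trans ?_
  have hB : (0 : ℝ) ≤ ((bohr N Θ ρY).card : ℝ) := Nat.cast_nonneg _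
  have h5 : VP (PQ Q m) * (200 * r * K * (Θ.card + 1) * τs * ((n : ℝ) + 1)) ≤
      VP (PQ Q m) * (400 * r * K * (Θ.card + 1) * τs * YR K r Θ.card) * X := by
    have e1 : (n : ℝ) + 1 ≤ 2 * (YR K r Θ.card * X) := by linarith
    have e2 : 0 ≤ VP (PQ Q m) * (200 * r * K * (Θ.card + 1) * τs) := by positivity
    calc VP (PQ Q m) * (200 * r * K * (Θ.card + 1) * τs * ((n : ℝ) + 1))
        = VP (PQ Q m) * (200 * r * K * (Θ.card + 1) * τs) * ((n : ℝ) + 1) := by ring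
      _ ≤ VP (PQ Q m) * (200 * r * K * (Θ.card + 1) * τs) * (2 * (YR K r Θ.card * X)) :=
        mul_le_mul_of_nonneg_left e1 e2
      _ = VP (PQ Q m) * (400 * r * K * (Θ.card + 1) * τs * YR K r Θ.card) * X := by ring
  calc ((bohr N Θ ρY).card : ℝ) * ((2 * ε + VP (PQ Q m) * (2 * ε₀ + 6 * pi)) * X +
        VP (PQ Q m) * (200 * r * K * (Θ.card + 1) * τs * ((n : ℝ) + 1)))
      ≤ ((bohr N Θ ρY).card : ℝ) * ((2 * ε + VP (PQ Q m) * (2 * ε₀ + 6 * pi)) * X +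
        VP (PQ Q m) * (400 * r * K * (Θ.card + 1) * τs * YR K r Θ.card) * X) :=
        mul_le_mul_of_nonneg_left (by linarith) hB
    _ = ((bohr N Θ ρY).card : ℝ) * X * (2 * ε + VP (PQ Q m) * (2 * ε₀ + 6 * pi) +
        VP (PQ Q m) * (400 * r * K * (Θ.card + 1) * τs * YR K r Θ.card)) := by ring
    _ ≤ ((bohr N Θ ρY).card : ℝ) * X * (α ^ 3 / 4) :=
        mul_le_mul_of_nonneg_left hfin (mul_nonneg hB hX0.le)
    _ = α ^ 3 * ((bohr N Θ ρY).card : ℝ) * X / 4 := by ring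

end Pool.Agent.APP
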