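import Pool.Agent.Lib.MP_8a4e59_co.G.Stm
import Pool.Agent.Lib.MP_8a4e59_co.G.Book
import Pool.Agent.Lib.MP_8a4e59_co.C.CloseC

set_option autoImplicit false

/-!
G4: conversion of the lower bound to the form of `S_main` (after helper37's `G/Book.lean`).
-/

namespace Pool.Agent.APP

open Finset

open Classical in
private theorem g4_book (A : Finset ℤ) (N W q K r : ℕ) (x₀ : ℤ) (Th : Finset ℝ) (BY : Finset ℤ) (δ Q : ℝ)
    (k : ℕ) (cc ξ : Fin k → ℝ) (hW : 1 ≤ W) (hq : 1 ≤ q) (hK : 1 ≤ K) (hr : 1 ≤ r) (hδ : 0 ≤ δ)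
    (hAN : A ⊆ Finset.Icc 1 (N : ℤ))
    (hwt : ∀ d : ℤ, wt cc ξ d =
      (((if ((W * q : ℕ) : ℤ) ∣ d then bet K r Th ((d : ℝ) / W) else 0 : ℝ)) : ℂ)) :
    ∑ x ∈ Finset.Icc (1 : ℤ) (⌊((N : ℝ) / W) / q⌋₊ : ℤ),
        wgt K r Th q 1 ⌊((N : ℝ) / W) / q⌋₊ x * TT (AW A x₀ W) 0 BY (q * x) *
          nuP (PQ Q (W * q)) (W * q) x -
      (BY.card : ℝ) * VP (PQ Q (W * q)) * (δ * N / ((W * q : ℕ) : ℝ)) ≤
    ∑ y ∈ BY.image (fun y => x₀ + (W : ℤ) * y), ∑ n ∈ (Finset.Icc (1 : ℤ) (N : ℤ)).filter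
        (fun n : ℤ => δ * (N : ℝ) ≤ (n : ℝ)),
      (if y - (n - 1) ∈ A ∧ y ∈ A ∧ y + (n - 1) ∈ A then (wt cc ξ (n - 1)).re else 0) *
        (CQ Q * (if rough Q n then 1 else 0)) := by
  obtain ⟨b0, b1, -, -⟩ := p_bet p_fej K r Th hK hr
  have W0 : (0 : ℝ) < W := by exact_mod_cast hW
  have q0 : (0 : ℝ) < q := by exact_mod_cast hq
  set n₂ := ⌊((N : ℝ) / W) / q⌋₊ with hn₂
  set m := W * q with hm
  have hm1 : 1 ≤ m := Nat.one_le_iff_ne_zero.2 (by positivity)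
  have m0 : (0 : ℝ) < (m : ℝ) := by exact_mod_cast hm1
  have mZ : (0 : ℤ) < (m : ℤ) := by exact_mod_cast hm1
  have hVP := VP_pos Q m
  have hCQ : 0 ≤ CQ Q := hVP.trans (VP_le_CQ Q m)
  set f : ℤ → ℝ := fun x => wgt K r Th q 1 n₂ x * TT (AW A x₀ W) 0 BY (q * x) *
    nuP (PQ Q m) m x with hf
  set F : ℤ → ℤ → ℝ := fun y n =>
    (if y - (n - 1) ∈ A ∧ y ∈ A ∧ y + (n - 1) ∈ A then (wt cc ξ (n - 1)).re else 0) *
        (CQ Q * (if rough Q n then 1 else 0)) with hF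
  have hwre : ∀ d : ℤ, (wt cc ξ d).re =
      (if ((m : ℕ) : ℤ) ∣ d then bet K r Th ((d : ℝ) / W) else 0) := by
    intro d; rw [hwt d, Complex.ofReal_re]
  have hwre0 : ∀ d : ℤ, 0 ≤ (wt cc ξ d).re := by
    intro d
    rw [hwre]
    split_ifs
    · exact b0 _
    · exact le_refl _
  have hF0 : ∀ y n, 0 ≤ F y n := by
    intro y n
    rw [hF]
    apply mul_nonneg
    · split_ifs
      · exact hwre0 _
      · exact le_refl _
    · apply mul_nonneg hCQ
      split_ifs <;> norm_num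
  set I := Finset.Icc (1 : ℤ) (n₂ : ℤ) with hI
  set P : ℤ → Prop := fun x => δ * (N : ℝ) ≤ (((m : ℤ) * x + 1 : ℤ) : ℝ) ∧ (m : ℤ) * x + 1 ≤ N with hP
  -- bound of the terms
  have hfle : ∀ x ∈ I, f x ≤ (BY.card : ℝ) * VP (PQ Q m) := by
    intro x hx
    rw [hI, Finset.mem_Icc] at hx
    rw [hf]
    show wgt K r Th q 1 n₂ x * TT (AW A x₀ W) 0 BY (q * x) * nuP (PQ Q m) m x ≤ _
    have h1 : wgt K r Th q 1 n₂ x = bet K r Th ((q : ℝ) * x) := by
      unfold wgt; rw [if_pos hx]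
    rw [h1]
    have h2 : 0 ≤ TT (AW A x₀ W) 0 BY (q * x) := by unfold TT; positivity
    calc bet K r Th ((q : ℝ) * x) * TT (AW A x₀ W) 0 BY (q * x) * nuP (PQ Q m) m x
        ≤ 1 * (BY.card : ℝ) * VP (PQ Q m) := by
          apply mul_le_mul _ (nuP_le Q m x) (nuP_nonneg Q m x) (by positivity)
          exact mul_le_mul (b1 _) (TT_le _ _ _ _) h2 (by norm_num)
      _ = _ := by ring
  -- number of bad terms
  have hcard : ((I.filter (fun x : ℤ => ((((m : ℤ) * x + 1 : ℤ) : ℝ)) < δ * (N : ℝ))).card : ℝ) ≤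
      δ * N / m := by
    have hsub : I.filter (fun x : ℤ => ((((m : ℤ) * x + 1 : ℤ) : ℝ)) < δ * (N : ℝ)) ⊆
        (Finset.Icc (1 : ℤ) ⌊δ * N / m⌋) := by
      intro x hx
      rw [Finset.mem_filter, hI, Finset.mem_Icc] at hx
      obtain ⟨⟨hx1, hx2⟩, hx4⟩ := hx
      rw [Finset.mem_Icc]
      refine ⟨hx1, ?_⟩
      rw [Int.le_floor, le_div_iff₀ m0]
      push_cast at hx4
      linarith
    have h1 := Finset.card_le_card hsub
    rw [Int.card_Icc] at h1
    have h3 : 0 ≤ ⌊δ * N / m⌋ := Int.floor_nonneg.2 (by positivity)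
    have h4 : ((I.filter (fun x : ℤ => ((((m : ℤ) * x + 1 : ℤ) : ℝ)) < δ * (N : ℝ))).card : ℤ) ≤
      ⌊δ * N / m⌋ := by omega
    have h5 : (⌊δ * N / m⌋ : ℝ) ≤ δ * N / m := Int.floor_le _
    have h6 : ((I.filter (fun x : ℤ => ((((m : ℤ) * x + 1 : ℤ) : ℝ)) < δ * (N : ℝ))).card : ℝ) ≤
      ((⌊δ * N / m⌋ : ℤ) : ℝ) := by
      exact_mod_cast h4
    linarith
  -- vanishing terms
  have hzero : ∀ x ∈ I, ¬ (m : ℤ) * x + 1 ≤ N → f x = 0 := by
    intro x hx hxN
    rw [hI, Finset.mem_Icc] at hx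
    have : TT (AW A x₀ W) 0 BY (q * x) = 0 := by
      unfold TT
      rw [Finset.filter_eq_empty_iff.2]
      · simp
      · intro y _ hy
        rw [mem_AW hW, mem_AW hW, mem_AW hW] at hy
        have h1 := Finset.mem_Icc.1 (hAN hy.1)
        have h2 := Finset.mem_Icc.1 (hAN hy.2.2)
        have e1 : x₀ + (W : ℤ) * (0 + y - q * x) = x₀ + W * y - m * x := by
          rw [hm]; push_cast; ring
        have e3 : x₀ + (W : ℤ) * (0 + y + q * x) = x₀ + W * y + m * x := by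
          rw [hm]; push_cast; ring
        rw [e1] at h1
        rw [e3] at h2
        have : (0 : ℤ) < (m : ℤ) * x := mul_pos mZ (by omega)
        apply hxN
        linarith [h1.1, h2.2]
    rw [hf]
    show wgt K r Th q 1 n₂ x * TT (AW A x₀ W) 0 BY (q * x) * nuP (PQ Q m) m x = 0
    rw [this]
    ring
  -- the good terms
  have hgood : ∀ x ∈ I.filter P,
      f x ≤ ∑ y ∈ BY.image (fun y => x₀ + (W : ℤ) * y), F y ((m : ℤ) * x + 1) := by
    intro x hx
    rw [Finset.mem_filter, hI, Finset.mem_Icc] at hx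
    have h1 : wgt K r Th q 1 n₂ x = bet K r Th ((q : ℝ) * x) := by
      unfold wgt; rw [if_pos hx.1]
    rw [Finset.sum_image (by
      intro a _ b _ hab
      simp only [add_right_inj] at hab
      exact mul_left_cancel₀ (by omega) hab)]
    have h2 : ∀ y ∈ BY, F (x₀ + (W : ℤ) * y) ((m : ℤ) * x + 1) =
        (if 0 + y - (q * x : ℤ) ∈ AW A x₀ W ∧ 0 + y ∈ AW A x₀ W ∧ 0 + y + (q * x : ℤ) ∈ AW A x₀ W
          then (1 : ℝ) else 0) * (bet K r Th ((q : ℝ) * x) *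
            (CQ Q * (if rough Q ((m : ℤ) * x + 1) then 1 else 0))) := by
      intro y _
      rw [hF]
      simp only [add_sub_cancel_right]
      have e1 : x₀ + (W : ℤ) * y - m * x = x₀ + W * (0 + y - q * x) := by
        rw [hm]; push_cast; ring
      have e2 : x₀ + (W : ℤ) * y = x₀ + W * (0 + y) := by ring
      have e3 : x₀ + (W : ℤ) * y + m * x = x₀ + W * (0 + y + q * x) := by
        rw [hm]; push_cast; ring
      have e4 : (((m : ℤ) * x : ℤ) : ℝ) / W = (q : ℝ) * x := by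
        rw [hm]; push_cast; field_simp
      have heq : (x₀ + (W : ℤ) * y - m * x ∈ A ∧ x₀ + (W : ℤ) * y ∈ A ∧ x₀ + (W : ℤ) * y + m * x ∈ A) ↔
          (0 + y - (q * x : ℤ) ∈ AW A x₀ W ∧ 0 + y ∈ AW A x₀ W ∧ 0 + y + (q * x : ℤ) ∈ AW A x₀ W) := by
        rw [mem_AW hW, mem_AW hW, mem_AW hW, ← e1, ← e2, ← e3]
      have e5 : (wt cc ξ ((m : ℤ) * x)).re = bet K r Th ((q : ℝ) * x) := by
        rw [hwre, if_pos (Dvd.intro x rfl : ((m : ℕ) : ℤ) ∣ m * x), e4]
      rw [e5]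
      by_cases hc : (0 + y - (q * x : ℤ) ∈ AW A x₀ W ∧ 0 + y ∈ AW A x₀ W ∧
          0 + y + (q * x : ℤ) ∈ AW A x₀ W)
      · rw [if_pos hc, if_pos (heq.2 hc), one_mul]
      · rw [if_neg hc, if_neg (fun h => hc (heq.1 h)), zero_mul, zero_mul]
    rw [Finset.sum_congr rfl h2, ← Finset.sum_mul]
    have h3 : ∑ y ∈ BY, (if 0 + y - (q * x : ℤ) ∈ AW A x₀ W ∧ 0 + y ∈ AW A x₀ W ∧
        0 + y + (q * x : ℤ) ∈ AW A x₀ W then (1 : ℝ) else 0) = TT (AW A x₀ W) 0 BY (q * x) := by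
      unfold TT
      rw [Finset.sum_ite]
      simp
    rw [h3]
    show wgt K r Th q 1 n₂ x * TT (AW A x₀ W) 0 BY (q * x) * nuP (PQ Q m) m x ≤ _
    rw [h1]
    have h4 := nuP_le_rough Q m x
    have h5 : 0 ≤ TT (AW A x₀ W) 0 BY (q * x) := by unfold TT; positivity
    have h6 := b0 ((q : ℝ) * x)
    calc bet K r Th ((q : ℝ) * x) * TT (AW A x₀ W) 0 BY (q * x) * nuP (PQ Q m) m x
        ≤ bet K r Th ((q : ℝ) * x) * TT (AW A x₀ W) 0 BY (q * x) *
          (CQ Q * (if rough Q ((m : ℤ) * x + 1) then 1 else 0)) := by gcongr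
      _ = _ := by ring
  rw [← Finset.sum_filter_add_sum_filter_not I P]
  have hbad : ∑ x ∈ I.filter (fun x => ¬ P x), f x ≤ (BY.card : ℝ) * VP (PQ Q m) *
      (δ * N / m) := by
    have hf0 : ∀ x ∈ I, 0 ≤ f x := by
      intro x _
      rw [hf]
      show 0 ≤ wgt K r Th q 1 n₂ x * TT (AW A x₀ W) 0 BY (q * x) * nuP (PQ Q m) m x
      have h2 : 0 ≤ TT (AW A x₀ W) 0 BY (q * x) := by unfold TT; positivity
      have h3 : 0 ≤ wgt K r Th q 1 n₂ x := by
        unfold wgt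
        split_ifs
        · exact b0 _
        · exact le_refl _
      exact mul_nonneg (mul_nonneg h3 h2) (nuP_nonneg Q m x)
    have e : ∑ x ∈ I.filter (fun x => ¬ P x), f x =
        ∑ x ∈ (I.filter (fun x => ¬ P x)).filter
          (fun x : ℤ => ((((m : ℤ) * x + 1 : ℤ) : ℝ)) < δ * (N : ℝ)), f x := by
      symm
      apply Finset.sum_subset (Finset.filter_subset _ _)
      intro x hx hx2
      have hxI := (Finset.mem_filter.1 hx).1
      have hxP := (Finset.mem_filter.1 hx).2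
      apply hzero x hxI
      intro hle
      apply hx2
      rw [Finset.mem_filter]
      refine ⟨hx, ?_⟩
      by_contra hge
      exact hxP ⟨not_lt.1 hge, hle⟩
    rw [e]
    calc ∑ x ∈ (I.filter (fun x => ¬ P x)).filter
          (fun x : ℤ => ((((m : ℤ) * x + 1 : ℤ) : ℝ)) < δ * (N : ℝ)), f x
        ≤ ∑ x ∈ I.filter (fun x : ℤ => ((((m : ℤ) * x + 1 : ℤ) : ℝ)) < δ * (N : ℝ)), f x := by
          apply Finset.sum_le_sum_of_subset_of_nonneg
          · intro x hx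
            rw [Finset.mem_filter] at hx ⊢
            exact ⟨(Finset.mem_filter.1 hx.1).1, hx.2⟩
          · intro x hx _
            exact hf0 x (Finset.mem_filter.1 hx).1
      _ ≤ ∑ x ∈ I.filter (fun x : ℤ => ((((m : ℤ) * x + 1 : ℤ) : ℝ)) < δ * (N : ℝ)),
            (BY.card : ℝ) * VP (PQ Q m) := by
          apply Finset.sum_le_sum
          intro x hx
          exact hfle x (Finset.mem_filter.1 hx).1
      _ = ((I.filter (fun x : ℤ => ((((m : ℤ) * x + 1 : ℤ) : ℝ)) < δ * (N : ℝ))).card : ℝ) *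
            ((BY.card : ℝ) * VP (PQ Q m)) := by
          rw [Finset.sum_const, nsmul_eq_mul]
      _ ≤ (δ * N / m) * ((BY.card : ℝ) * VP (PQ Q m)) := by
          gcongr
      _ = _ := by ring
  have hmain : ∑ x ∈ I.filter P, f x ≤
      ∑ y ∈ BY.image (fun y => x₀ + (W : ℤ) * y), ∑ n ∈ (Finset.Icc (1 : ℤ) (N : ℤ)).filter
        (fun n : ℤ => δ * (N : ℝ) ≤ (n : ℝ)), F y n := by
    rw [Finset.sum_comm]
    calc ∑ x ∈ I.filter P, f x
        ≤ ∑ x ∈ I.filter P, ∑ y ∈ BY.image (fun y => x₀ + (W : ℤ) * y), F y ((m : ℤ) * x + 1) :=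
          Finset.sum_le_sum hgood
      _ = ∑ n ∈ (I.filter P).image (fun x => (m : ℤ) * x + 1),
            ∑ y ∈ BY.image (fun y => x₀ + (W : ℤ) * y), F y n := by
          rw [Finset.sum_image]
          intro a _ b _ hab
          simp only [add_left_inj] at hab
          exact mul_left_cancel₀ (by omega) hab
      _ ≤ _ := by
          apply Finset.sum_le_sum_of_subset_of_nonneg
          · intro n hn
            rw [Finset.mem_image] at hn
            obtain ⟨x, hx, rfl⟩ := hn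
            rw [Finset.mem_filter, hI, Finset.mem_Icc] at hx
            rw [Finset.mem_filter, Finset.mem_Icc]
            refine ⟨⟨?_, hx.2.2⟩, hx.2.1⟩
            nlinarith [hx.1.1]
          · intro n _ _
            exact Finset.sum_nonneg (fun y _ => hF0 y n)
  linarith


open Classical in
theorem p_G4 : S_G4 := by
  intro N W K r q A A' x₀ Θ ρY δ Q M hN hW hK hr hq hδ hA hA' hM
  have hAW : A' = AW A x₀ W := by
    ext n
    rw [hA' n, mem_AW hW]
  obtain ⟨k, cc, ξ, hc0, hc1, hc2⟩ := t_wexp K r W (W * q)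
    (insert (1 / (4 * ((N : ℝ) / W))) Θ) hK hr hW (Nat.one_le_iff_ne_zero.2 (by positivity))
  have hwt : ∀ d : ℤ, wt cc ξ d =
      (((if ((W * q : ℕ) : ℤ) ∣ d then
        bet K r (insert (1 / (4 * ((N : ℝ) / W))) Θ) ((d : ℝ) / W) else 0 : ℝ)) : ℂ) := by
    intro d
    exact hc2 d
  refine ⟨k, cc, ξ, (bohr ((N : ℝ) / W) Θ ρY).image (fun y => x₀ + (W : ℤ) * y), hc0, hc1.le, ?_, ?_⟩
  · intro d
    rw [hwt d, Complex.ofReal_im, Complex.ofReal_re]
    refine ⟨rfl, ?_⟩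
    split_ifs
    · exact (p_bet p_fej K r _ hK hr).1 _
    · exact le_refl _
  · have h := g4_book A N W q K r x₀ (insert (1 / (4 * ((N : ℝ) / W))) Θ)
      (bohr ((N : ℝ) / W) Θ ρY) δ Q k cc ξ hW hq hK hr hδ.le hA hwt
    refine le_trans ?_ h
    rw [hAW] at hM
    unfold bw at hM
    have e : δ * (N : ℝ) / ((W * q : ℕ) : ℝ) = δ * ((N : ℝ) / W / q) := by
      have W0 : (0 : ℝ) < W := by exact_mod_cast hW
      have q0 : (0 : ℝ) < q := by exact_mod_cast hq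
      push_cast
      field_simp
    rw [e]
    linarith

end Pool.Agent.APP
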