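import Pool.Agent.Lib.MP_8a4e59_co.G.Num

set_option autoImplicit false

namespace Pool.Agent.APP

/-- `C l^n ≤ exp l` eventually -/
theorem N1_exp (C : ℝ) (n : ℕ) : ∀ᶠ l : ℝ in Filter.atTop, C * l ^ n ≤ Real.exp l := by
  have h := (Real.tendsto_exp_div_pow_atTop n).eventually_ge_atTop C
  filter_upwards [h, Filter.eventually_gt_atTop (0 : ℝ)] with l h1 h2
  rwa [le_div_iff₀ (pow_pos h2 n)] at h1

theorem p_N1 : S_N1 := by
  intro C₀ cA hC hcA
  have hcA1 : (1 : ℝ) ≤ cA := by exact_mod_cast hcA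
  filter_upwards [N1_exp 1600 8, N1_exp 2 2, Filter.eventually_ge_atTop (100 : ℝ),
    Filter.eventually_ge_atTop (10 * (cA : ℝ)), Filter.eventually_ge_atTop (4 * C₀ + 1),
    Filter.eventually_ge_atTop (5 + 2 * C₀)] with l he1 he2 h100 hlc hlC hlC2
  have hl0 : 0 < l := by linarith
  have hl1 : 1 ≤ l := by linarith
  have hl8 : 0 < l ^ 8 := pow_pos hl0 8
  have hge : ∀ n : ℕ, 1 ≤ n → l ≤ l ^ n := fun n hn => le_self_pow₀ hl1 (by omega)
  have hal0 : 0 < qal C₀ l := Real.exp_pos _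
  have heps0 : 0 < qeps l := Real.exp_pos _
  have heta0 : 0 < qeta l := by unfold qeta; positivity
  have hlogal : Real.log (4 / qal C₀ l) = Real.log 4 + C₀ * l := by
    rw [Real.log_div (by norm_num) hal0.ne', qal, Real.log_exp]; ring
  have hlogeps : Real.log (2 / qeps l) = Real.log 2 + l ^ 2 := by
    rw [Real.log_div (by norm_num) heps0.ne', qeps, Real.log_exp]; ring
  have hlog2 : Real.log 2 ≤ 1 := by
    have := Real.log_two_lt_d9; linarith
  have hlog4 : Real.log 4 ≤ 2 := by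
    have : Real.log 4 = 2 * Real.log 2 := by
      rw [show (4 : ℝ) = 2 ^ 2 by norm_num, Real.log_pow]; push_cast; ring
    rw [this]; linarith
  refine ⟨?_, ?_, ?_, ?_, ?_, ?_, ?_, ?_, ?_, ?_⟩
  · unfold qal
    rw [Real.exp_le_one_iff]
    have : 0 ≤ C₀ * l := by positivity
    linarith
  · unfold qeta
    apply one_div_le_one_div_of_le (by norm_num)
    exact le_trans h100 (hge 8 (by norm_num))
  · unfold qeta
    apply one_div_le_one_div_of_le (by linarith)
    have := hge 8 (by norm_num)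
    linarith
  · unfold qeps qal qeta
    have e1 : (Real.exp (-(C₀ * l)) / 2) ^ 4 * (1 / l ^ 8) / 100 =
        Real.exp (-(4 * C₀ * l)) / (1600 * l ^ 8) := by
      rw [div_pow, ← Real.exp_nat_mul]
      have : ((4 : ℕ) : ℝ) * -(C₀ * l) = -(4 * C₀ * l) := by push_cast; ring
      rw [this]
      field_simp
      norm_num
    rw [e1, le_div_iff₀ (by positivity)]
    have h3 : Real.exp (-(l ^ 2)) * Real.exp l ≤ Real.exp (-(4 * C₀ * l)) := by
      rw [← Real.exp_add]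
      apply Real.exp_le_exp.mpr
      nlinarith
    calc Real.exp (-(l ^ 2)) * (1600 * l ^ 8) ≤ Real.exp (-(l ^ 2)) * Real.exp l :=
          mul_le_mul_of_nonneg_left he1 (Real.exp_pos _).le
      _ ≤ _ := h3
  · unfold qeps
    rw [div_eq_mul_inv, ← Real.exp_neg, neg_neg]
    have h100e : (100 : ℝ) ≤ Real.exp (l ^ 2) := by
      have h1 : l ^ 2 + 1 ≤ Real.exp (l ^ 2) := Real.add_one_le_exp _
      have h2 := hge 2 (by norm_num)
      linarith
    calc (100 : ℝ) * Real.exp (l ^ 2) ≤ Real.exp (l ^ 2) * Real.exp (l ^ 2) :=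
          mul_le_mul_of_nonneg_right h100e (Real.exp_pos _).le
      _ = Real.exp (2 * l ^ 2) := by rw [← Real.exp_add]; congr 1; ring
      _ ≤ Real.exp (Real.exp l) := Real.exp_le_exp.mpr he2
  · rw [hlogal]
    unfold qJ
    refine le_trans ?_ (Nat.le_ceil _)
    have e1 : 2 * (Real.log 4 + C₀ * l) / qeta l = 2 * (Real.log 4 + C₀ * l) * l ^ 8 := by
      unfold qeta; field_simp
    rw [e1]
    have h1 : (1 : ℝ) ≤ l ^ 8 := one_le_pow₀ hl1
    have h2 : 2 * (Real.log 4 + C₀ * l) * l ^ 8 ≤ 2 * (2 + C₀ * l) * l ^ 8 := by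
      apply mul_le_mul_of_nonneg_right _ hl8.le
      linarith
    have h3 : 5 + 2 * C₀ * l ≤ l ^ 2 := by nlinarith
    calc 2 * (Real.log 4 + C₀ * l) * l ^ 8 + 1 ≤ 2 * (2 + C₀ * l) * l ^ 8 + l ^ 8 := by linarith
      _ = (5 + 2 * C₀ * l) * l ^ 8 := by ring
      _ ≤ l ^ 2 * l ^ 8 := mul_le_mul_of_nonneg_right h3 hl8.le
      _ = l ^ 10 := by ring
  · rw [hlogeps]
    unfold qLam
    refine le_trans ?_ (Nat.le_ceil _)
    have e1 : (Real.log 2 + l ^ 2) / qeta l = (Real.log 2 + l ^ 2) * l ^ 8 := by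
      unfold qeta; field_simp
    rw [e1]
    have hlog2p : 0 ≤ Real.log 2 := Real.log_nonneg (by norm_num)
    have h0 : (0 : ℝ) ≤ (Real.log 2 + l ^ 2) * l ^ 8 := by positivity
    have h1 : ((Real.log 2 + l ^ 2) * l ^ 8) ^ cA + 1 ^ cA ≤ ((Real.log 2 + l ^ 2) * l ^ 8 + 1) ^ cA :=
      pow_add_pow_le h0 zero_le_one (by omega)
    rw [one_pow] at h1
    refine le_trans h1 ?_
    rw [pow_mul]
    apply pow_le_pow_left₀ (by positivity)
    have h2 : (1 : ℝ) ≤ l ^ 8 := one_le_pow₀ hl1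
    have h3 : (1 : ℝ) ≤ l ^ 2 := one_le_pow₀ hl1
    have h4 : Real.log 2 + l ^ 2 + 1 ≤ l ^ 3 := by nlinarith [hge 2 (by norm_num)]
    calc (Real.log 2 + l ^ 2) * l ^ 8 + 1 ≤ (Real.log 2 + l ^ 2 + 1) * l ^ 8 := by nlinarith
      _ ≤ l ^ 3 * l ^ 8 := mul_le_mul_of_nonneg_right h4 hl8.le
      _ = l ^ 11 := by ring
  · unfold qfl
    rw [div_le_div_iff₀ (by positivity) (by norm_num)]
    have := hge 4 (by norm_num)
    linarith
  · unfold qfl
    positivity
  · unfold qfl qeta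
    have : Real.sqrt (1 / l ^ 8) = 1 / l ^ 4 := by
      rw [show (1 : ℝ) / l ^ 8 = (1 / l ^ 4) ^ 2 by field_simp]
      exact Real.sqrt_sq (by positivity)
    rw [this]; ring

end Pool.Agent.APP
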