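import Pool.Agent.Lib.MP_8a4e59_co.G.Num
import Pool.Agent.Lib.MP_8a4e59_co.D.P.D3f

set_option autoImplicit false

/-!
(N10) parameter inequalities. (helper37)
-/

namespace Pool.Agent.APP

open Finset

/-- `C x^n ≤ exp x` eventually -/
lemma n10_poly (C : ℝ) (n : ℕ) : ∀ᶠ x : ℝ in Filter.atTop, C * x ^ n ≤ Real.exp x := by
  have h := (Real.tendsto_pow_mul_exp_neg_atTop_nhds_zero n).const_mul C
  rw [mul_zero] at h
  filter_upwards [h.eventually_lt_const zero_lt_one] with x hx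
  have h1 : Real.exp x * Real.exp (-x) = 1 := by rw [← Real.exp_add]; simp
  have h2 : 0 < Real.exp x := Real.exp_pos x
  calc C * x ^ n = (C * (x ^ n * Real.exp (-x))) * Real.exp x := by
        rw [mul_assoc, mul_assoc, mul_comm (Real.exp (-x)), h1, mul_one]
    _ ≤ 1 * Real.exp x := by gcongr
    _ = Real.exp x := one_mul _

/-- `VP ≤ exp l` eventually -/
lemma n10_VP (s : ℕ) : ∀ᶠ l : ℝ in Filter.atTop, ∀ m : ℕ, VP (PQ (qQ s l) m) ≤ Real.exp l := by
  obtain ⟨C, hC⟩ := p_D3f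
  filter_upwards [n10_poly (C : ℝ) ((s + 1) * C), Filter.eventually_ge_atTop (2 : ℝ)] with l hl hl2 m
  have hl1 : (1 : ℝ) ≤ l := by linarith
  have hQ : (3 : ℝ) ≤ qQ s l := by
    unfold qQ
    have h1 : (2 : ℝ) ≤ l ^ (s + 1) := by
      calc (2 : ℝ) ≤ l ^ 1 := by rw [pow_one]; exact hl2
        _ ≤ l ^ (s + 1) := pow_le_pow_right₀ hl1 (by omega)
    have := Real.add_one_le_exp (l ^ (s + 1))
    linarith
  have h1 := (hC (qQ s l) hQ (PQ (qQ s l) m) (by
    intro p hp
    unfold PQ at hp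
    rw [Finset.mem_filter] at hp ⊢
    exact ⟨hp.1, hp.2.1⟩)).1
  refine h1.trans ?_
  have h2 : Real.log (qQ s l) = l ^ (s + 1) := by unfold qQ; rw [Real.log_exp]
  rw [h2, ← pow_mul]
  exact hl

lemma n10_vp0 (Q : ℝ) (m : ℕ) : 0 ≤ VP (PQ Q m) := by
  unfold VP
  apply Finset.prod_nonneg
  intro p hp
  unfold PQ at hp
  rw [Finset.mem_filter] at hp
  have : (2 : ℝ) ≤ p := by exact_mod_cast hp.2.1.two_le
  apply inv_nonneg.2
  rw [sub_nonneg, div_le_one (by linarith)]
  linarith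

set_option maxHeartbeats 1000000 in
theorem p_N10 : S_N10 := by
  intro C₀ cA s hC₀ hcA hs
  have hv : Filter.Tendsto (fun l : ℝ => vv cA l) Filter.atTop Filter.atTop := by
    unfold vv
    apply Filter.tendsto_pow_atTop
    positivity
  filter_upwards [n10_VP s, Filter.eventually_ge_atTop (8 + 3 * C₀), hv.eventually (n10_poly 800 4),
    hv.eventually (Filter.eventually_ge_atTop 100)] with l hVP hl hv4 hv100 m R K Ya α hR hK1 hK hYa1 hYa hα hα1
  have hl8 : (8 : ℝ) ≤ l := by linarith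
  have hl1 : (1 : ℝ) ≤ l := by linarith
  have hl0 : (0 : ℝ) < l := by linarith
  have hc1 : 1 ≤ cA ^ 2 := Nat.one_le_pow _ _ hcA
  -- size of `v`
  have hvl : l ^ 2 ≤ vv cA l := by
    unfold vv
    exact pow_le_pow_right₀ hl1 (by omega)
  set v := vv cA l with hvdef
  have hv0 : (0 : ℝ) < v := by linarith
  have hv1 : (1 : ℝ) ≤ v := by linarith
  have hls : v ^ 13 ≤ l ^ s := by
    rw [hvdef]; unfold vv
    rw [← pow_mul]
    exact pow_le_pow_right₀ hl1 (by rw [mul_comm]; exact hs)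
  have hV0 : 0 ≤ VP (PQ (qQ s l) m) := n10_vp0 _ _
  have hV := hVP m
  set V := VP (PQ (qQ s l) m) with hVdef
  have hel : 0 < Real.exp l := Real.exp_pos l
  set z := Real.exp (l - l ^ 2) with hz
  have hz0 : 0 < z := Real.exp_pos _
  -- the final comparison
  have hfin : 9 * z ≤ 7 / 256 * Real.exp (-(3 * C₀ * l)) := by
    have h1 : z ≤ Real.exp (-(3 * C₀ * l) - 7 * l) := by
      rw [hz]; apply Real.exp_le_exp.2
      nlinarith
    have h2 : Real.exp (-(3 * C₀ * l) - 7 * l) = Real.exp (-(3 * C₀ * l)) * Real.exp (-(7 * l)) := by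
      rw [← Real.exp_add]; congr 1
    have h3 : Real.exp (-(7 * l)) ≤ 1 / 400 := by
      rw [Real.exp_neg, ← one_div]
      apply one_div_le_one_div_of_le (by norm_num)
      have h4 : (7 * l) ^ 2 / 2 ≤ Real.exp (7 * l) := by
        have := Real.quadratic_le_exp_of_nonneg (show (0 : ℝ) ≤ 7 * l by positivity)
        nlinarith
      nlinarith
    have h5 : 0 < Real.exp (-(3 * C₀ * l)) := Real.exp_pos _
    calc 9 * z ≤ 9 * (Real.exp (-(3 * C₀ * l)) * Real.exp (-(7 * l))) := by rw [← h2]; gcongr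
      _ ≤ 9 * (Real.exp (-(3 * C₀ * l)) * (1 / 400)) := by gcongr
      _ ≤ 7 / 256 * Real.exp (-(3 * C₀ * l)) := by linarith
  have hα3 : Real.exp (-(3 * C₀ * l)) / 32 ≤ α ^ 3 / 4 := by
    have h1 : (qal C₀ l / 2) ^ 3 ≤ α ^ 3 := by
      apply pow_le_pow_left₀ _ hα
      unfold qal; positivity
    have h2 : (qal C₀ l / 2) ^ 3 = Real.exp (-(3 * C₀ * l)) / 8 := by
      unfold qal
      rw [div_pow, ← Real.exp_nat_mul]
      congr 1
      · congr 1; push_cast; ring
      · norm_num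
    rw [h2] at h1
    linarith
  have hE0 : 0 < Real.exp (-(3 * C₀ * l)) := Real.exp_pos _
  -- the four terms
  have hT1 : V * (2 * qeps l) ≤ 2 * z := by
    unfold qeps
    have h1 : z = Real.exp l * Real.exp (-(l ^ 2)) := by rw [hz, ← Real.exp_add]; congr 1
    rw [h1]
    have h2 : 0 < Real.exp (-(l ^ 2)) := Real.exp_pos _
    calc V * (2 * Real.exp (-(l ^ 2))) ≤ Real.exp l * (2 * Real.exp (-(l ^ 2))) := by gcongr
      _ = _ := by ring
  have hT2 : V * (6 * qpi v) ≤ 6 * z := by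
    unfold qpi
    have h1 : z = Real.exp l * Real.exp (-(l ^ 2)) := by rw [hz, ← Real.exp_add]; congr 1
    rw [h1]
    have h3 : l ^ 2 ≤ v ^ 4 := by
      calc l ^ 2 ≤ v := hvl
        _ = v ^ 1 := (pow_one v).symm
        _ ≤ v ^ 4 := pow_le_pow_right₀ hv1 (by norm_num)
    have h2 : Real.exp (-(v ^ 4)) ≤ Real.exp (-(l ^ 2)) := Real.exp_le_exp.2 (by linarith)
    calc V * (6 * Real.exp (-(v ^ 4))) ≤ Real.exp l * (6 * Real.exp (-(l ^ 2))) := by gcongr
      _ = _ := by ring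
  have hT3 : V * (400 * qr v * K * (R + 1) * qts v * Ya) ≤ z := by
    have h1 : (qr v : ℝ) ≤ 2 * v ^ 3 := by
      unfold qr
      have := Nat.ceil_lt_add_one (show (0 : ℝ) ≤ v ^ 3 by positivity)
      have h2 : (1 : ℝ) ≤ v ^ 3 := one_le_pow₀ hv1
      linarith
    unfold qts
    have hKp : (0 : ℝ) ≤ K := Nat.cast_nonneg _
    calc V * (400 * (qr v : ℝ) * K * (R + 1) * Real.exp (-(v ^ 3)) * Ya)
        ≤ Real.exp l * (400 * (2 * v ^ 3) * Real.exp (3 * v) * v * Real.exp (-(v ^ 3)) *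
            Real.exp (5 * v ^ 2)) := by gcongr
      _ = Real.exp l * ((800 * v ^ 4) * Real.exp (3 * v) * Real.exp (-(v ^ 3)) *
            Real.exp (5 * v ^ 2)) := by ring
      _ ≤ Real.exp l * (Real.exp v * Real.exp (3 * v) * Real.exp (-(v ^ 3)) *
            Real.exp (5 * v ^ 2)) := by gcongr
      _ = Real.exp (l + v + 3 * v - v ^ 3 + 5 * v ^ 2) := by
          rw [← Real.exp_add, ← Real.exp_add, ← Real.exp_add, ← Real.exp_add]
          congr 1; ring
      _ ≤ z := by
          rw [hz]; apply Real.exp_le_exp.2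
          have h5 : 100 * v ^ 2 ≤ v ^ 3 := by
            have : v ^ 3 = v * v ^ 2 := by ring
            rw [this]; gcongr
          have h6 : 100 * v ≤ v ^ 2 := by nlinarith
          linarith
  have hT4 : V * (qdel s l * Ya) ≤ z := by
    unfold qdel
    calc V * (Real.exp (-(l ^ s)) * Ya) ≤ Real.exp l * (Real.exp (-(v ^ 13)) * Real.exp (5 * v ^ 2)) := by
          gcongr
      _ = Real.exp (l - v ^ 13 + 5 * v ^ 2) := by
          rw [← Real.exp_add, ← Real.exp_add]; congr 1; ring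
      _ ≤ z := by
          rw [hz]; apply Real.exp_le_exp.2
          have h5 : 100 * v ^ 2 ≤ v ^ 3 := by
            have : v ^ 3 = v * v ^ 2 := by ring
            rw [this]; gcongr
          have h6 : v ^ 3 ≤ v ^ 13 := pow_le_pow_right₀ hv1 (by norm_num)
          have h7 : 100 * v ≤ v ^ 2 := by nlinarith
          linarith
  have hep : 2 * qep C₀ l = Real.exp (-(3 * C₀ * l)) / 256 := by
    unfold qep; ring
  constructor
  · have h1 : V * (2 * qeps l + 6 * qpi v) = V * (2 * qeps l) + V * (6 * qpi v) := by ring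
    rw [h1, hep]
    linarith
  · linarith

end Pool.Agent.APP
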