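import Pool.Agent.Lib.MP_8a4e59_co.G.Num

set_option autoImplicit false

/-! Piece APP-G N11 (MP_8a4e59_co): the last but one asymptotic inequality. -/

namespace Pool.Agent.APP

theorem N11_half : Real.exp (-1) ≤ 1 / 2 := by
  rw [Real.exp_neg, ← one_div]
  have h : (2 : ℝ) ≤ Real.exp 1 := by
    have := Real.add_one_le_exp (1 : ℝ)
    linarith
  exact one_div_le_one_div_of_le (by norm_num) h

theorem N11_quarter : Real.exp (-2) ≤ 1 / 4 := by
  have h : Real.exp (-2) = Real.exp (-1) * Real.exp (-1) := by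
    rw [← Real.exp_add]
    norm_num
  rw [h]
  have h1 := N11_half
  have h2 := Real.exp_pos (-1 : ℝ)
  nlinarith

theorem N11_key {C₀ l v : ℝ} (hC : 0 < C₀) (hlv : l ≤ v) (hv : 3 * C₀ + 18 ≤ v) :
    -(v ^ 13) + (2 * v ^ 12 + v ^ 11 + 5 * v ^ 2) ≤
      (-(3 * C₀ * l) - 5) + ((-v - 1) + (-((v + 2) * v))) := by
  have hv1 : (1 : ℝ) ≤ v := by linarith
  have h0 : (1 : ℝ) ≤ v ^ 12 := one_le_pow₀ hv1
  have h1 : v ≤ v ^ 12 := le_self_pow₀ hv1 (by norm_num)
  have h2 : v ^ 2 ≤ v ^ 12 := pow_le_pow_right₀ hv1 (by norm_num)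
  have h11 : v ^ 11 ≤ v ^ 12 := pow_le_pow_right₀ hv1 (by norm_num)
  have h3 : 3 * C₀ * l ≤ 3 * C₀ * v ^ 12 :=
    mul_le_mul_of_nonneg_left (hlv.trans h1) (by positivity)
  have h4 : (3 * C₀ + 18) * v ^ 12 ≤ v * v ^ 12 :=
    mul_le_mul_of_nonneg_right hv (by positivity)
  have h5 : v * v ^ 12 = v ^ 13 := by ring
  nlinarith

theorem p_N11 : S_N11 := by
  intro C₀ cA hC hcA
  filter_upwards [Filter.eventually_ge_atTop (3 * C₀ + 18)] with l hl
  intro R W q ρY α Ya hR hρ hρ1 hα hα1 hW hq hW' hq' hY hY'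
  have hl1 : 1 ≤ l := by linarith
  have hlv : l ≤ vv cA l := by
    unfold vv
    refine le_self_pow₀ hl1 ?_
    positivity
  have hpow : l ^ (13 * (40 * cA ^ 2)) = vv cA l ^ 13 := by
    unfold vv
    rw [← pow_mul, mul_comm]
  rw [hpow]
  generalize vv cA l = v at hR hρ hW' hq' hY' hlv ⊢
  have hv : 3 * C₀ + 18 ≤ v := hl.trans hlv
  have hv1 : (1 : ℝ) ≤ v := by linarith
  have hρ0 : 0 < ρY := lt_of_lt_of_le (Real.exp_pos _) hρ
  have hW1 : (1 : ℝ) ≤ W := by exact_mod_cast hW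
  have hq1 : (1 : ℝ) ≤ q := by exact_mod_cast hq
  have hα' : Real.exp (-(C₀ * l) - 1) ≤ α := by
    refine le_trans ?_ hα
    unfold qal
    rw [sub_eq_add_neg, Real.exp_add]
    have h1 := N11_half
    have h2 := Real.exp_pos (-(C₀ * l))
    nlinarith
  have h1 : Real.exp (-(3 * C₀ * l) - 5) ≤ α ^ 3 / 4 := by
    have ha : Real.exp (-(C₀ * l) - 1) ^ 3 ≤ α ^ 3 :=
      pow_le_pow_left₀ (Real.exp_pos _).le hα' 3
    have e : Real.exp (-(3 * C₀ * l) - 5) = Real.exp (-(C₀ * l) - 1) ^ 3 * Real.exp (-2) := by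
      rw [← Real.exp_nat_mul, ← Real.exp_add]
      congr 1
      push_cast
      ring
    rw [e]
    have h2 := N11_quarter
    have h3 : 0 ≤ α ^ 3 := (pow_pos (Real.exp_pos _) 3).le.trans ha
    have h4 := Real.exp_pos (-2 : ℝ)
    calc Real.exp (-(C₀ * l) - 1) ^ 3 * Real.exp (-2) ≤ α ^ 3 * (1 / 4) :=
          mul_le_mul ha h2 h4.le h3
      _ = α ^ 3 / 4 := by ring
  have h2 : Real.exp (-v - 1) ≤ ρY / 2 := by
    rw [sub_eq_add_neg, Real.exp_add]
    calc Real.exp (-v) * Real.exp (-1) ≤ ρY * (1 / 2) :=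
          mul_le_mul hρ N11_half (Real.exp_pos _).le hρ0.le
      _ = ρY / 2 := by ring
  have h3 : Real.exp (-v - 2) ≤ ρY / 4 := by
    rw [sub_eq_add_neg, Real.exp_add]
    calc Real.exp (-v) * Real.exp (-2) ≤ ρY * (1 / 4) :=
          mul_le_mul hρ N11_quarter (Real.exp_pos _).le hρ0.le
      _ = ρY / 4 := by ring
  have h4 : Real.exp (-((v + 2) * v)) ≤ (ρY / 4) ^ R := by
    calc Real.exp (-((v + 2) * v)) ≤ Real.exp ((R : ℝ) * (-v - 2)) := by
          apply Real.exp_le_exp.2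
          have : (R : ℝ) * (v + 2) ≤ v * (v + 2) :=
            mul_le_mul_of_nonneg_right (by linarith) (by linarith)
          nlinarith
      _ = Real.exp (-v - 2) ^ R := by rw [← Real.exp_nat_mul]
      _ ≤ (ρY / 4) ^ R := pow_le_pow_left₀ (Real.exp_pos _).le h3 R
  have hden : (W : ℝ) * W * q * Ya ≤ Real.exp (2 * v ^ 12 + v ^ 11 + 5 * v ^ 2) := by
    have e : Real.exp (2 * v ^ 12 + v ^ 11 + 5 * v ^ 2) =
        Real.exp (v ^ 12) * Real.exp (v ^ 12) * Real.exp (v ^ 11) * Real.exp (5 * v ^ 2) := by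
      rw [← Real.exp_add, ← Real.exp_add, ← Real.exp_add]
      congr 1
      ring
    rw [e]
    have hY0 : 0 ≤ Ya := by linarith
    gcongr
  have hdpos : 0 < (W : ℝ) * W * q * Ya := by
    have hY0 : 0 < Ya := by linarith
    have hW0 : (0 : ℝ) < W := by linarith
    have hq0 : (0 : ℝ) < q := by linarith
    positivity
  rw [le_div_iff₀ hdpos]
  calc Real.exp (-(v ^ 13)) * ((W : ℝ) * W * q * Ya)
      ≤ Real.exp (-(v ^ 13)) * Real.exp (2 * v ^ 12 + v ^ 11 + 5 * v ^ 2) :=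
        mul_le_mul_of_nonneg_left hden (Real.exp_pos _).le
    _ = Real.exp (-(v ^ 13) + (2 * v ^ 12 + v ^ 11 + 5 * v ^ 2)) := (Real.exp_add _ _).symm
    _ ≤ Real.exp ((-(3 * C₀ * l) - 5) + ((-v - 1) + (-((v + 2) * v)))) :=
        Real.exp_le_exp.2 (N11_key hC hlv hv)
    _ = Real.exp (-(3 * C₀ * l) - 5) * (Real.exp (-v - 1) * Real.exp (-((v + 2) * v))) := by
        rw [Real.exp_add, Real.exp_add (-v - 1)]
    _ ≤ α ^ 3 / 4 * (ρY / 2 * (ρY / 4) ^ R) :=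
        mul_le_mul h1 (mul_le_mul h2 h4 (Real.exp_pos _).le (by linarith))
          (mul_pos (Real.exp_pos _) (Real.exp_pos _)).le ((Real.exp_pos _).le.trans h1)

end Pool.Agent.APP
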