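import Pool.Agent.Lib.MP_8a4e59_co.G.Num

set_option autoImplicit false

/-! (N12) of the parameter choice (MP_8a4e59_co).   (helper21) -/

namespace Pool.Agent.APP

open Finset

theorem N12_pow_le_exp (n : ℕ) : ∀ᶠ l : ℝ in Filter.atTop, l ^ n ≤ Real.exp l := by
  have h := Real.tendsto_pow_mul_exp_neg_atTop_nhds_zero n
  have h2 := h.eventually (gt_mem_nhds (show (0 : ℝ) < 1 by norm_num))
  filter_upwards [h2] with l hl
  have h3 : l ^ n * Real.exp (-l) * Real.exp l ≤ 1 * Real.exp l :=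
    mul_le_mul_of_nonneg_right hl.le (Real.exp_pos l).le
  rwa [mul_assoc, ← Real.exp_add, neg_add_cancel, Real.exp_zero, mul_one, one_mul] at h3

theorem N12_ceil (x : ℝ) (hx : 0 ≤ x) : ((⌈Real.exp x⌉₊ : ℕ) : ℝ) ≤ Real.exp (x + 1) := by
  have h := Nat.ceil_lt_add_one (Real.exp_pos x).le
  have h1 : 1 ≤ Real.exp x := Real.one_le_exp hx
  have h2 : Real.exp (x + 1) = Real.exp x * Real.exp 1 := Real.exp_add x 1
  have h3 : (2 : ℝ) ≤ Real.exp 1 := by
    have := Real.add_one_le_exp (1 : ℝ)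
    linarith
  nlinarith

theorem N12_D0 (C₀ l : ℝ) (hC : 0 < C₀) (hl : 1 ≤ l) :
    (qD0 C₀ l : ℝ) ≤ Real.exp ((25 * C₀ + 1) * l * (l + 2) + 1) := by
  unfold qD0 qQ0
  have hk : (qk0 l : ℝ) + 1 ≤ l + 2 := by
    unfold qk0
    have := Nat.ceil_lt_add_one (show (0 : ℝ) ≤ l by linarith)
    linarith
  rw [← Real.exp_nat_mul]
  have hc : 0 ≤ (25 * C₀ + 1) * l := by nlinarith
  refine (N12_ceil _ (by positivity)).trans (Real.exp_le_exp.mpr ?_)
  push_cast
  nlinarith

theorem N12_D (s : ℕ) (l : ℝ) (hl : 1 ≤ l) :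
    (qD s l : ℝ) ≤ Real.exp (l ^ (s + 1) * (l ^ 2 + 2) + 1) := by
  unfold qD qQ
  have hk : (qk l : ℝ) + 1 ≤ l ^ 2 + 2 := by
    unfold qk
    have := Nat.ceil_lt_add_one (show (0 : ℝ) ≤ l ^ 2 by positivity)
    linarith
  rw [← Real.exp_nat_mul]
  have hc : 0 ≤ l ^ (s + 1) := by positivity
  refine (N12_ceil _ (by positivity)).trans (Real.exp_le_exp.mpr ?_)
  push_cast
  nlinarith

theorem p_N12 : S_N12 := by
  intro C₀ cA s hC hcA hs
  have hc0 : 0 < 25 * C₀ + 1 := by linarith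
  filter_upwards [N12_pow_le_exp (12 * (40 * cA ^ 2) + s + 12),
    Filter.eventually_ge_atTop (100 + 3 * (25 * C₀ + 1))] with l h1 hl
  intro W q N Ya Yb hW hq hN hWe hqe hYa hYb hYae hYbe
  have hl1 : 1 ≤ l := by linarith
  have hl0 : 0 < l := by linarith
  have hv1 : 1 ≤ vv cA l := one_le_pow₀ hl1
  have hv0 : 0 < vv cA l := by linarith
  set n := 12 * (40 * cA ^ 2) + s + 10 with hn
  set c := 25 * C₀ + 1 with hc
  have hP : ∀ m : ℕ, m ≤ n → l ^ m ≤ l ^ n := fun m hm => pow_le_pow_right₀ hl1 hm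
  have hvp : ∀ j : ℕ, j ≤ 12 → vv cA l ^ j ≤ l ^ n := by
    intro j hj
    unfold vv
    rw [← pow_mul]
    apply hP
    have : 40 * cA ^ 2 * j ≤ 40 * cA ^ 2 * 12 := Nat.mul_le_mul_left _ hj
    omega
  have t1 := hvp 12 le_rfl
  have t2 := hvp 11 (by norm_num)
  have t3 := hvp 2 (by norm_num)
  have t4 := hvp 4 (by norm_num)
  have t5 := hP 4 (by omega)
  have t6 := hP (s + 6) (by omega)
  have t7 : l ^ (s + 1) * (l ^ 2 + 2) ≤ 3 * l ^ n := by
    have a1 := hP (s + 3) (by omega)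
    have a2 := hP (s + 1) (by omega)
    have a3 : l ^ (s + 1) * (l ^ 2 + 2) = l ^ (s + 3) + 2 * l ^ (s + 1) := by ring
    rw [a3]; linarith
  have t8 : c * l * (l + 2) ≤ 3 * c * l ^ n := by
    have a1 := hP 2 (by omega)
    have a2 := hP 1 (by omega)
    rw [pow_one] at a2
    nlinarith
  have t0 : (1 : ℝ) ≤ l ^ n := one_le_pow₀ hl1
  -- everything is at most exp l / 2
  have hG : (40 + 3 * c) * l ^ n ≤ Real.exp l / 2 := by
    have a1 : l ^ (12 * (40 * cA ^ 2) + s + 12) = l ^ n * l * l := by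
      rw [hn]; ring
    rw [a1] at h1
    have a2 : (40 + 3 * c) * l ^ n ≤ l * l ^ n := by
      apply mul_le_mul_of_nonneg_right _ (by positivity)
      linarith
    have a3 : 2 * (l * l ^ n) ≤ l ^ n * l * l := by
      have : 0 ≤ l * l ^ n := by positivity
      nlinarith
    linarith
  have hT : vv cA l ^ 12 + vv cA l ^ 11 + c * l * (l + 2) + 5 + 5 * vv cA l ^ 2 + 2 * vv cA l ^ 4 + l ^ 4 +
      l ^ (s + 6) + l ^ (s + 1) * (l ^ 2 + 2) ≤ Real.exp l / 2 := by
    refine le_trans ?_ hG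
    linarith
  have p1 : 0 ≤ vv cA l ^ 12 := by positivity
  have p2 : 0 ≤ vv cA l ^ 11 := by positivity
  have p3 : 0 ≤ c * l * (l + 2) := by positivity
  have p4 : 0 ≤ vv cA l ^ 2 := by positivity
  have p5 : 0 ≤ vv cA l ^ 4 := by positivity
  have p6 : 0 ≤ l ^ 4 := by positivity
  have p7 : 0 ≤ l ^ (s + 6) := by positivity
  have p8 : 0 ≤ l ^ (s + 1) * (l ^ 2 + 2) := by positivity
  have hW0 : (0 : ℝ) < W := by exact_mod_cast hW
  have hq0 : (0 : ℝ) < q := by exact_mod_cast hq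
  have hWr : (1 : ℝ) ≤ W := by exact_mod_cast hW
  have hqr : (1 : ℝ) ≤ q := by exact_mod_cast hq
  set G := Real.exp l / 2 with hGdef
  have hX : Real.exp G ≤ N / W / q := by
    rw [div_div, le_div_iff₀ (by positivity), hN]
    have a1 : (W : ℝ) * q ≤ Real.exp (vv cA l ^ 12) * Real.exp (vv cA l ^ 11) :=
      mul_le_mul hWe hqe hq0.le (Real.exp_pos _).le
    calc Real.exp G * ((W : ℝ) * q) ≤ Real.exp G * (Real.exp (vv cA l ^ 12) * Real.exp (vv cA l ^ 11)) :=
          mul_le_mul_of_nonneg_left a1 (Real.exp_pos _).le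
      _ = Real.exp (G + (vv cA l ^ 12 + vv cA l ^ 11)) := by rw [Real.exp_add, Real.exp_add]
      _ ≤ Real.exp (Real.exp l) := by
          apply Real.exp_le_exp.mpr
          linarith
  have hXW : q * (N / W / q) = N / W := by field_simp
  have hX0 : 0 < N / W / q := lt_of_lt_of_le (Real.exp_pos _) hX
  have hNW : N / W / q ≤ N / W := by
    rw [← hXW]
    have : q * (N / W / q) / q = N / W / q := by field_simp
    rw [this]
    nlinarith
  have h2e : (2 : ℝ) ≤ Real.exp 1 := by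
    have := Real.add_one_le_exp (1 : ℝ)
    linarith
  have h4e : (4 : ℝ) ≤ Real.exp 2 := by
    have : Real.exp 2 = Real.exp 1 * Real.exp 1 := by rw [← Real.exp_add]; norm_num
    rw [this]; nlinarith
  have hD0 := N12_D0 C₀ l hC hl1
  rw [← hc] at hD0
  have hD := N12_D s l hl1
  have hD00 : (0 : ℝ) ≤ qD0 C₀ l := by positivity
  have hD10 : (0 : ℝ) ≤ qD s l := by positivity
  have htau : 0 < qtau s l := Real.exp_pos _
  refine ⟨?_, ?_, ?_, ?_, ?_, ?_, ?_, ?_⟩
  · rw [hGdef] at hX; exact hX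
  · have : 1 ≤ Real.exp G := Real.one_le_exp (by linarith)
    linarith
  · rw [← hXW]
    have a1 : 4 * (qD0 C₀ l : ℝ) ≤ N / W / q := by
      refine le_trans ?_ hX
      calc 4 * (qD0 C₀ l : ℝ) ≤ Real.exp 2 * Real.exp (c * l * (l + 2) + 1) :=
            mul_le_mul h4e hD0 hD00 (Real.exp_pos _).le
        _ = Real.exp (2 + (c * l * (l + 2) + 1)) := by rw [← Real.exp_add]
        _ ≤ Real.exp G := Real.exp_le_exp.mpr (by linarith)
    calc 4 * (q : ℝ) * qD0 C₀ l = q * (4 * qD0 C₀ l) := by ring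
      _ ≤ q * (N / W / q) := mul_le_mul_of_nonneg_left a1 hq0.le
  · refine le_trans ?_ hX
    calc 2 * Ya ≤ Real.exp 1 * Real.exp (5 * vv cA l ^ 2) :=
          mul_le_mul h2e hYae (by linarith) (Real.exp_pos _).le
      _ = Real.exp (1 + 5 * vv cA l ^ 2) := by rw [← Real.exp_add]
      _ ≤ Real.exp G := Real.exp_le_exp.mpr (by linarith)
  · refine le_trans ?_ hX
    calc 2 * Yb ≤ Real.exp 1 * Real.exp (2 * vv cA l ^ 4) :=
          mul_le_mul h2e hYbe (by linarith) (Real.exp_pos _).le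
      _ = Real.exp (1 + 2 * vv cA l ^ 4) := by rw [← Real.exp_add]
      _ ≤ Real.exp G := Real.exp_le_exp.mpr (by linarith)
  · refine le_trans h2e (le_trans ?_ hX)
    exact Real.exp_le_exp.mpr (by linarith)
  · have hfl : 1 / l ^ 4 ≤ qfl cA l := by
      unfold qfl
      apply div_le_div_of_nonneg_right _ (by positivity)
      exact_mod_cast hcA
    have hYa0 : 0 < Ya := by linarith
    have a0 : 1 / l ^ 4 * ((N / W / q) / Ya) ≤ qfl cA l * ((N / W / q) / Ya) :=
      mul_le_mul_of_nonneg_right hfl (by positivity)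
    refine le_trans ?_ a0
    rw [div_le_iff₀ htau]
    have a1 : 1 / l ^ 4 * ((N / W / q) / Ya) * qtau s l = (N / W / q) * qtau s l / (l ^ 4 * Ya) := by
      field_simp
    rw [a1, le_div_iff₀ (by positivity)]
    have hle : l ^ 4 ≤ Real.exp (l ^ 4) := by
      have := Real.add_one_le_exp (l ^ 4)
      linarith
    calc (qD0 C₀ l : ℝ) * (l ^ 4 * Ya) ≤
          Real.exp (c * l * (l + 2) + 1) * (Real.exp (l ^ 4) * Real.exp (5 * vv cA l ^ 2)) := by
            apply mul_le_mul hD0 _ (by positivity) (Real.exp_pos _).le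
            exact mul_le_mul hle hYae hYa0.le (Real.exp_pos _).le
      _ = Real.exp (c * l * (l + 2) + 1 + (l ^ 4 + 5 * vv cA l ^ 2)) := by
            rw [← Real.exp_add, ← Real.exp_add]
      _ ≤ Real.exp (G + -(l ^ (s + 6))) := Real.exp_le_exp.mpr (by linarith)
      _ = Real.exp G * qtau s l := by rw [Real.exp_add]; rfl
      _ ≤ (N / W / q) * qtau s l := mul_le_mul_of_nonneg_right hX htau.le
  · rw [div_le_iff₀ htau]
    calc 2 * (qD s l : ℝ) ≤ Real.exp 1 * Real.exp (l ^ (s + 1) * (l ^ 2 + 2) + 1) :=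
          mul_le_mul h2e hD hD10 (Real.exp_pos _).le
      _ = Real.exp (1 + (l ^ (s + 1) * (l ^ 2 + 2) + 1)) := by rw [← Real.exp_add]
      _ ≤ Real.exp (G + -(l ^ (s + 6))) := Real.exp_le_exp.mpr (by linarith)
      _ = Real.exp G * qtau s l := by rw [Real.exp_add]; rfl
      _ ≤ (N / W / q) * qtau s l := mul_le_mul_of_nonneg_right hX htau.le

end Pool.Agent.APP
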