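import Pool.Agent.Lib.MP_8a4e59_co.G.Num

set_option autoImplicit false

namespace Pool.Agent.APP

theorem p_N2 : S_N2 := by
  intro cA hcA
  filter_upwards [Filter.eventually_ge_atTop (8 : ℝ)] with l hl
  have hl0 : 0 < l := by linarith
  have hl1 : 1 ≤ l := by linarith
  have hmono : ∀ a b : ℕ, a ≤ b → l ^ a ≤ l ^ b := fun a b hab => pow_le_pow_right₀ hl1 hab
  have hone : ∀ n : ℕ, 1 ≤ l ^ n := fun n => one_le_pow₀ hl1
  have hJ : (qJ l : ℝ) ≤ 2 * l ^ 10 := by
    have h1 : (qJ l : ℝ) < l ^ 10 + 1 := Nat.ceil_lt_add_one (by positivity)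
    have := hone 10
    linarith
  have hL : (qLam cA l : ℝ) ≤ 2 * l ^ (11 * cA) := by
    have h1 : (qLam cA l : ℝ) < l ^ (11 * cA) + 1 := Nat.ceil_lt_add_one (by positivity)
    have := hone (11 * cA)
    linarith
  have hJ0 : (0 : ℝ) ≤ qJ l := Nat.cast_nonneg _
  have hL0 : (0 : ℝ) ≤ qLam cA l := Nat.cast_nonneg _
  have hJL : (qJ l * qLam cA l : ℝ) ≤ 4 * l ^ (21 * cA) := by
    have h1 : (qJ l * qLam cA l : ℝ) ≤ (2 * l ^ 10) * (2 * l ^ (11 * cA)) :=
      mul_le_mul hJ hL hL0 (by positivity)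
    have h2 : (2 * l ^ 10) * (2 * l ^ (11 * cA)) = 4 * l ^ (10 + 11 * cA) := by
      rw [pow_add]; ring
    have h3 := hmono (10 + 11 * cA) (21 * cA) (by omega)
    linarith
  have hsq : cA ≤ cA ^ 2 := by nlinarith
  have hsum : (qJ l * qLam cA l : ℝ) + 1 + qLam cA l ≤ l ^ (21 * cA + 1) := by
    have h2 := hmono (11 * cA) (21 * cA) (by omega)
    have h3 := hone (21 * cA)
    have h4 : 8 * l ^ (21 * cA) ≤ l ^ (21 * cA + 1) := by
      rw [pow_succ, mul_comm]
      exact mul_le_mul_of_nonneg_left hl (by positivity)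
    linarith
  constructor
  · unfold vv
    have h1 := hmono (21 * cA + 1) (40 * cA ^ 2) (by nlinarith)
    linarith
  · unfold vv
    have h0 : (0 : ℝ) ≤ (qJ l * qLam cA l : ℝ) + 1 + qLam cA l := by positivity
    have h1 : ((qJ l * qLam cA l : ℝ) + 1 + qLam cA l) ^ cA ≤ l ^ ((21 * cA + 1) * cA) := by
      rw [pow_mul]
      exact pow_le_pow_left₀ h0 hsum cA
    have h2 : (qJ l : ℝ) * ((qJ l * qLam cA l : ℝ) + 1 + qLam cA l) ^ cA ≤
        2 * l ^ (10 + (21 * cA + 1) * cA) := by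
      have := mul_le_mul hJ h1 (pow_nonneg h0 _) (by positivity)
      rw [pow_add]
      linarith
    have h3 := hmono 10 (10 + (21 * cA + 1) * cA) (by omega)
    have h4 := hone (10 + (21 * cA + 1) * cA)
    have h5 : 8 * l ^ (10 + (21 * cA + 1) * cA) ≤ l ^ (10 + (21 * cA + 1) * cA + 1) := by
      rw [pow_succ _ (10 + (21 * cA + 1) * cA), mul_comm]
      exact mul_le_mul_of_nonneg_left hl (by positivity)
    have h6 := hmono (10 + (21 * cA + 1) * cA + 1) (40 * cA ^ 2) (by nlinarith)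
    linarith

end Pool.Agent.APP
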