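import Pool.Agent.Lib.MP_8a4e59_co.G.Num

set_option autoImplicit false

/-!
MP_8a4e59_co, part G, (N3).
-/

namespace Pool.Agent.APP

theorem N3_vv {cA : ℕ} (hc : 1 ≤ cA) {l : ℝ} (hl : 2 ≤ l) :
    l ^ 2 ≤ vv cA l / 4 ∧ 3200 ≤ vv cA l := by
  have h1 : l ^ 40 ≤ vv cA l := by
    unfold vv
    apply pow_le_pow_right₀ (by linarith)
    nlinarith
  have h2 : (2 : ℝ) ^ 38 ≤ l ^ 38 := pow_le_pow_left₀ (by norm_num) hl 38
  have h3 : (4 : ℝ) ≤ l ^ 2 := by nlinarith
  have h4 : l ^ 40 = l ^ 2 * l ^ 38 := by ring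
  have h5 : l ^ 2 * 3200 ≤ l ^ 40 := by
    rw [h4]
    apply mul_le_mul_of_nonneg_left _ (by positivity)
    refine le_trans ?_ h2
    norm_num
  constructor <;> linarith

theorem p_N3 : S_N3 := by
  intro cA hc
  filter_upwards [Filter.eventually_ge_atTop (2 : ℝ)] with l hl
  intro R ρY hR hρ hρ1
  obtain ⟨hl2, hv⟩ := N3_vv hc hl
  set v := vv cA l with hvdef
  have hR0 : (0 : ℝ) ≤ R := Nat.cast_nonneg R
  have hρ0 : 0 < ρY := lt_of_lt_of_le (Real.exp_pos _) hρ
  -- `100 v ≤ exp (v / 4)`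
  have hq : (v / 4) ^ 2 / 2 ≤ Real.exp (v / 4) := by
    have := Real.quadratic_le_exp_of_nonneg (show 0 ≤ v / 4 by linarith)
    nlinarith
  have h100 : 100 * v ≤ Real.exp (v / 4) := by
    refine le_trans ?_ hq
    nlinarith
  have hel : Real.exp (l ^ 2) ≤ Real.exp (v / 4) := Real.exp_le_exp.2 hl2
  have hkap : Real.exp (-(v / 2)) ≤ kap R (qeps l) := by
    unfold kap qeps
    rw [le_div_iff₀ (by positivity)]
    have e1 : Real.exp (-(v / 2)) = Real.exp (-(v / 4)) * Real.exp (-(v / 4)) := by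
      rw [← Real.exp_add]; ring_nf
    have h1 : 100 * ((R : ℝ) + 1) ≤ Real.exp (v / 4) := le_trans (by linarith) h100
    have h2 : Real.exp (-(v / 4)) * (100 * ((R : ℝ) + 1)) ≤ 1 := by
      calc Real.exp (-(v / 4)) * (100 * ((R : ℝ) + 1)) ≤ Real.exp (-(v / 4)) * Real.exp (v / 4) :=
            mul_le_mul_of_nonneg_left h1 (Real.exp_pos _).le
        _ = 1 := by rw [← Real.exp_add]; simp
    have h3 : Real.exp (-(v / 4)) ≤ Real.exp (-(l ^ 2)) := Real.exp_le_exp.2 (by linarith)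
    calc Real.exp (-(v / 2)) * (100 * ((R : ℝ) + 1))
        = Real.exp (-(v / 4)) * (Real.exp (-(v / 4)) * (100 * ((R : ℝ) + 1))) := by rw [e1]; ring
      _ ≤ Real.exp (-(v / 4)) * 1 := mul_le_mul_of_nonneg_left h2 (Real.exp_pos _).le
      _ ≤ Real.exp (-(l ^ 2)) := by rw [mul_one]; exact h3
  have hkap0 : 0 < kap R (qeps l) := lt_of_lt_of_le (Real.exp_pos _) hkap
  have hprod : Real.exp (-(3 * v / 2)) ≤ kap R (qeps l) * ρY := by
    calc Real.exp (-(3 * v / 2)) = Real.exp (-(v / 2)) * Real.exp (-v) := by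
          rw [← Real.exp_add]; ring_nf
      _ ≤ kap R (qeps l) * ρY := mul_le_mul hkap hρ (Real.exp_pos _).le hkap0.le
  have hprod0 : 0 < kap R (qeps l) * ρY := mul_pos hkap0 hρ0
  refine ⟨le_trans (Real.exp_le_exp.2 (by linarith)) hkap, ?_, ?_, ?_, ?_⟩
  · unfold kap
    rw [div_le_one (by positivity)]
    have : qeps l ≤ 1 := by
      unfold qeps
      rw [Real.exp_le_one_iff]
      nlinarith
    linarith
  · unfold qK
    rw [Nat.one_le_ceil_iff]
    positivity
  · unfold qK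
    have h1 := (Nat.ceil_lt_add_one (show 0 ≤ 64 / (kap R (qeps l) * ρY) by positivity)).le
    have h2 : 64 / (kap R (qeps l) * ρY) ≤ 64 * Real.exp (3 * v / 2) := by
      rw [div_le_iff₀ hprod0]
      have : 1 ≤ Real.exp (3 * v / 2) * (kap R (qeps l) * ρY) := by
        calc (1 : ℝ) = Real.exp (3 * v / 2) * Real.exp (-(3 * v / 2)) := by
              rw [← Real.exp_add]; simp
          _ ≤ _ := mul_le_mul_of_nonneg_left hprod (Real.exp_pos _).le
      linarith
    have h3 : (65 : ℝ) ≤ Real.exp (3 * v / 2) := by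
      have := Real.add_one_le_exp (3 * v / 2)
      linarith
    have h4 : Real.exp (3 * v) = Real.exp (3 * v / 2) * Real.exp (3 * v / 2) := by
      rw [← Real.exp_add]; ring_nf
    rw [h4]
    nlinarith
  · refine le_trans ?_ hprod
    unfold qts
    have h1 : Real.exp (-(v ^ 3)) * 4 ≤ Real.exp (-(v ^ 3)) * Real.exp (v ^ 3 - 3 * v / 2) := by
      apply mul_le_mul_of_nonneg_left _ (Real.exp_pos _).le
      have h2 := Real.add_one_le_exp (v ^ 3 - 3 * v / 2)
      have h3 : v * 4 ≤ v ^ 3 := by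
        have : v ^ 3 = v * v ^ 2 := by ring
        rw [this]
        apply mul_le_mul_of_nonneg_left _ (by linarith)
        nlinarith
      linarith
    rw [← Real.exp_add] at h1
    have e : -(v ^ 3) + (v ^ 3 - 3 * v / 2) = -(3 * v / 2) := by ring
    rw [e] at h1
    linarith

end Pool.Agent.APP
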