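import Pool.Agent.Lib.MP_8a4e59_co.G.Num

set_option autoImplicit false

/-! (N4) of the parameter choice (MP_8a4e59_co).   (helper21) -/

namespace Pool.Agent.APP

open Finset

theorem N4_pow_le_exp (n : ℕ) : ∀ᶠ l : ℝ in Filter.atTop, l ^ n ≤ Real.exp l := by
  have h := Real.tendsto_pow_mul_exp_neg_atTop_nhds_zero n
  have h2 := h.eventually (gt_mem_nhds (show (0 : ℝ) < 1 by norm_num))
  filter_upwards [h2] with l hl
  have h3 : l ^ n * Real.exp (-l) * Real.exp l ≤ 1 * Real.exp l :=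
    mul_le_mul_of_nonneg_right hl.le (Real.exp_pos l).le
  rwa [mul_assoc, ← Real.exp_add, neg_add_cancel, Real.exp_zero, mul_one, one_mul] at h3

/-- the final numerical inequality -/
theorem N4_num (C₀ l : ℝ) (cA : ℕ) (hl : 200000000 + 3 * C₀ ≤ l) (hC : 0 < C₀)
    (h1 : l ^ (200 * cA ^ 2 + 4) ≤ Real.exp l) :
    104000000 * (l ^ 4 * vv cA l ^ 5) * Real.exp (3 * C₀ * l + l ^ 2) ≤ Real.exp (l ^ 10 / 2) := by
  have hl1 : 1 ≤ l := by linarith
  have e1 : l ^ 4 * vv cA l ^ 5 = l ^ (200 * cA ^ 2 + 4) := by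
    unfold vv
    rw [← pow_mul, ← pow_add]
    congr 1
    ring
  have e2 : (104000000 : ℝ) ≤ Real.exp l := by
    have := Real.add_one_le_exp l
    linarith
  have e3 : 3 * C₀ * l + l ^ 2 ≤ 2 * l ^ 2 := by nlinarith
  have e4 : (104000000 : ℝ) * (l ^ 4 * vv cA l ^ 5) * Real.exp (3 * C₀ * l + l ^ 2) ≤
      Real.exp l * Real.exp l * Real.exp (2 * l ^ 2) := by
    rw [e1]
    have := Real.exp_le_exp.mpr e3
    have p1 : 0 ≤ l ^ (200 * cA ^ 2 + 4) := by positivity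
    exact mul_le_mul (mul_le_mul e2 h1 p1 (Real.exp_pos l).le) this (Real.exp_pos _).le
      (mul_nonneg (Real.exp_pos l).le (Real.exp_pos l).le)
  refine e4.trans ?_
  rw [← Real.exp_add, ← Real.exp_add]
  apply Real.exp_le_exp.mpr
  have h8 : (8 : ℝ) ≤ l ^ 8 := by
    have : l ≤ l ^ 8 := le_self_pow₀ hl1 (by norm_num)
    linarith
  have h10 : l ^ 10 = l ^ 8 * l ^ 2 := by ring
  have hsq : l ≤ l ^ 2 := le_self_pow₀ hl1 (by norm_num)
  rw [h10]
  nlinarith [sq_nonneg l]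

theorem p_N4 : S_N4 := by
  intro C₀ cA hC hcA
  filter_upwards [N4_pow_le_exp (200 * cA ^ 2 + 4), Filter.eventually_ge_atTop (200000000 + 3 * C₀)] with l h1 hl
  intro R ρY α hR hρ hρ1 hα hα1
  have hl1 : 1 ≤ l := by linarith
  have hl0 : 0 < l := by linarith
  have hv1 : 1 ≤ vv cA l := one_le_pow₀ hl1
  have hv0 : 0 < vv cA l := by linarith
  have hρ0 : 0 < ρY := lt_of_lt_of_le (Real.exp_pos _) hρ
  have hq0 : 0 < qal C₀ l := Real.exp_pos _
  have hα0 : 0 < α := by linarith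
  have hR0 : (0 : ℝ) < (R : ℝ) + 1 := by positivity
  have hnum := N4_num C₀ l cA hl hC h1
  set v := vv cA l with hv
  -- the left side
  have hbase : l ^ 10 ≤ (R : ℝ) + 1 + Real.log (2 / qeps l) / qeta l := by
    unfold qeps qeta
    rw [Real.log_div (by norm_num) (Real.exp_pos _).ne', Real.log_exp, div_div_eq_mul_div, div_one]
    have : 0 ≤ Real.log 2 := Real.log_nonneg (by norm_num)
    have h8 : 0 ≤ l ^ 8 := by positivity
    have : 0 ≤ Real.log 2 * l ^ 8 := mul_nonneg this h8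
    nlinarith
  have hl10 : 1 ≤ l ^ 10 := one_le_pow₀ hl1
  have hpow : l ^ 10 ≤ ((R : ℝ) + 1 + Real.log (2 / qeps l) / qeta l) ^ cA :=
    hbase.trans (le_self_pow₀ (hl10.trans hbase) (by omega))
  have hL : ρY * Real.exp (-(((R : ℝ) + 1 + Real.log (2 / qeps l) / qeta l) ^ cA) / 2) ≤
      ρY * Real.exp (-(l ^ 10 / 2)) := by
    apply mul_le_mul_of_nonneg_left _ hρ0.le
    apply Real.exp_le_exp.mpr
    linarith
  refine hL.trans ?_
  -- the right side
  have hkap0 : 0 < kap R (qeps l) := by unfold kap qeps; positivity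
  have hkap1 : kap R (qeps l) ≤ 1 := by
    unfold kap qeps
    rw [div_le_one (by positivity)]
    have : Real.exp (-(l ^ 2)) ≤ 1 := Real.exp_le_one_iff.mpr (by nlinarith [sq_nonneg l])
    have : (0 : ℝ) ≤ R := by positivity
    linarith
  have hkap2 : Real.exp (-(l ^ 2)) / (100 * v) ≤ kap R (qeps l) := by
    unfold kap qeps
    apply div_le_div_of_nonneg_left (Real.exp_pos _).le (by positivity)
    linarith
  have hK : (qK R l ρY : ℝ) ≤ 65 / (kap R (qeps l) * ρY) := by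
    unfold qK
    have hx : 0 < kap R (qeps l) * ρY := mul_pos hkap0 hρ0
    have hx1 : kap R (qeps l) * ρY ≤ 1 := by
      have := mul_le_mul hkap1 hρ1 hρ0.le (by norm_num)
      linarith
    have h := Nat.ceil_lt_add_one (show (0 : ℝ) ≤ 64 / (kap R (qeps l) * ρY) by positivity)
    have h2 : 1 ≤ 1 / (kap R (qeps l) * ρY) := by rw [le_div_iff₀ hx]; linarith
    have h3 : (65 : ℝ) / (kap R (qeps l) * ρY) = 64 / (kap R (qeps l) * ρY) + 1 / (kap R (qeps l) * ρY) := by ring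
    rw [h3]
    linarith
  have hK0 : (0 : ℝ) < qK R l ρY := by
    unfold qK
    have : 0 < ⌈64 / (kap R (qeps l) * ρY)⌉₊ := Nat.ceil_pos.mpr (by positivity)
    exact_mod_cast this
  have hr : (qr v : ℝ) ≤ 2 * v ^ 3 := by
    unfold qr
    have h := Nat.ceil_lt_add_one (show (0 : ℝ) ≤ v ^ 3 by positivity)
    have : 1 ≤ v ^ 3 := one_le_pow₀ hv1
    linarith
  have hr0 : (0 : ℝ) < qr v := by
    unfold qr
    have : 0 < ⌈v ^ 3⌉₊ := Nat.ceil_pos.mpr (by positivity)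
    exact_mod_cast this
  have hα3 : Real.exp (-(3 * C₀ * l)) / 8 ≤ α ^ 3 := by
    have h : (qal C₀ l / 2) ^ 3 ≤ α ^ 3 := pow_le_pow_left₀ (by positivity) hα 3
    have h2 : (qal C₀ l / 2) ^ 3 = Real.exp (-(3 * C₀ * l)) / 8 := by
      unfold qal
      rw [div_pow, ← Real.exp_nat_mul]
      norm_num
      ring_nf
    linarith
  have hfl : 1 / l ^ 4 ≤ qfl cA l := by
    unfold qfl
    apply div_le_div_of_nonneg_right _ (by positivity)
    exact_mod_cast hcA
  -- denominator bound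
  have hden : (1000 : ℝ) * (qr v * qK R l ρY * (R + 1)) ≤
      1000 * (2 * v ^ 3 * (65 * (100 * v) / (Real.exp (-(l ^ 2)) * ρY)) * v) := by
    have hK2 : (qK R l ρY : ℝ) ≤ 65 * (100 * v) / (Real.exp (-(l ^ 2)) * ρY) := by
      refine hK.trans ?_
      have h5 : Real.exp (-(l ^ 2)) / (100 * v) * ρY ≤ kap R (qeps l) * ρY :=
        mul_le_mul_of_nonneg_right hkap2 hρ0.le
      have h6 : (65 : ℝ) / (kap R (qeps l) * ρY) ≤ 65 / (Real.exp (-(l ^ 2)) / (100 * v) * ρY) :=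
        div_le_div_of_nonneg_left (by norm_num) (by positivity) h5
      refine h6.trans (le_of_eq ?_)
      have := (Real.exp_pos (-(l ^ 2))).ne'
      field_simp
    have h7 : (qr v : ℝ) * qK R l ρY ≤ 2 * v ^ 3 * (65 * (100 * v) / (Real.exp (-(l ^ 2)) * ρY)) :=
      mul_le_mul hr hK2 hK0.le (by positivity)
    have h8 : (qr v : ℝ) * qK R l ρY * (R + 1) ≤
        2 * v ^ 3 * (65 * (100 * v) / (Real.exp (-(l ^ 2)) * ρY)) * v :=
      mul_le_mul h7 hR hR0.le (by positivity)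
    linarith
  have hden0 : (0 : ℝ) < 1000 * (qr v * qK R l ρY * (R + 1)) := by positivity
  have hnum0 : 1 / l ^ 4 * (Real.exp (-(3 * C₀ * l)) / 8) ≤ qfl cA l * α ^ 3 :=
    mul_le_mul hfl hα3 (by positivity) (le_trans (by positivity) hfl)
  have hR1 : 1 / l ^ 4 * (Real.exp (-(3 * C₀ * l)) / 8) /
      (1000 * (2 * v ^ 3 * (65 * (100 * v) / (Real.exp (-(l ^ 2)) * ρY)) * v)) ≤
      qfl cA l * α ^ 3 / (1000 * (qr v * qK R l ρY * (R + 1))) :=
    div_le_div₀ (le_trans (by positivity) hnum0) hnum0 hden0 hden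
  refine le_trans ?_ hR1
  rw [le_div_iff₀ (by positivity)]
  have hE : Real.exp (-(l ^ 10 / 2)) * (104000000 * (l ^ 4 * v ^ 5) * Real.exp (3 * C₀ * l + l ^ 2)) ≤ 1 := by
    have := mul_le_mul_of_nonneg_left hnum (Real.exp_pos (-(l ^ 10 / 2))).le
    rwa [← Real.exp_add (-(l ^ 10 / 2)) (l ^ 10 / 2), neg_add_cancel, Real.exp_zero] at this
  have e5 : Real.exp (3 * C₀ * l + l ^ 2) * (Real.exp (-(3 * C₀ * l)) * Real.exp (-(l ^ 2))) = 1 := by
    rw [← Real.exp_add, ← Real.exp_add]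
    simp
    ring
  have hexp2 := Real.exp_pos (-(l ^ 2))
  have hexp3 := Real.exp_pos (-(3 * C₀ * l))
  have key : ρY * Real.exp (-(l ^ 10 / 2)) *
      (1000 * (2 * v ^ 3 * (65 * (100 * v) / (Real.exp (-(l ^ 2)) * ρY)) * v)) =
      Real.exp (-(l ^ 10 / 2)) * (13000000 * v ^ 5) / Real.exp (-(l ^ 2)) := by
    field_simp
    ring
  rw [key, div_le_iff₀ hexp2]
  have h9 : Real.exp (-(l ^ 10 / 2)) * (13000000 * v ^ 5) * (8 * l ^ 4) ≤
      Real.exp (-(3 * C₀ * l)) * Real.exp (-(l ^ 2)) := by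
    have h10 := mul_le_mul_of_nonneg_right hE (mul_pos hexp3 hexp2).le
    have h11 : Real.exp (-(l ^ 10 / 2)) * (104000000 * (l ^ 4 * v ^ 5) * Real.exp (3 * C₀ * l + l ^ 2)) *
        (Real.exp (-(3 * C₀ * l)) * Real.exp (-(l ^ 2))) =
        Real.exp (-(l ^ 10 / 2)) * (13000000 * v ^ 5) * (8 * l ^ 4) := by
      calc _ = Real.exp (-(l ^ 10 / 2)) * (104000000 * (l ^ 4 * v ^ 5)) *
          (Real.exp (3 * C₀ * l + l ^ 2) * (Real.exp (-(3 * C₀ * l)) * Real.exp (-(l ^ 2)))) := by ring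
        _ = _ := by rw [e5]; ring
    rw [h11, one_mul] at h10
    exact h10
  have h12 : 1 / l ^ 4 * (Real.exp (-(3 * C₀ * l)) / 8) * Real.exp (-(l ^ 2)) =
      Real.exp (-(3 * C₀ * l)) * Real.exp (-(l ^ 2)) / (8 * l ^ 4) := by
    field_simp
  rw [h12, le_div_iff₀ (by positivity)]
  exact h9

end Pool.Agent.APP
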