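import Pool.Agent.Lib.MP_8a4e59_co.G.Num

set_option autoImplicit false

/-!
(N5) of the parameter choice for MP_8a4e59_co. (helper30)
-/

namespace Pool.Agent.APP

open Finset Filter

theorem N5_ceil_le {x : ℝ} (hx : 1 ≤ x) : (⌈x⌉₊ : ℝ) ≤ 2 * x := by
  have h := (Nat.ceil_lt_add_one (by linarith : (0 : ℝ) ≤ x)).le
  linarith

theorem N5_pow_exp (c : ℝ) (k : ℕ) : ∀ᶠ v : ℝ in atTop, c * v ^ k ≤ Real.exp v := by
  have h := (Real.tendsto_exp_div_pow_atTop k).eventually_ge_atTop c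
  filter_upwards [h, eventually_ge_atTop (1 : ℝ)] with v hv h1
  have hp : (0 : ℝ) < v ^ k := by positivity
  rwa [le_div_iff₀ hp] at hv

theorem N5_vv_ge (cA : ℕ) (hc : 1 ≤ cA) {l : ℝ} (hl : 1 ≤ l) : l ^ 2 ≤ vv cA l := by
  unfold vv
  refine pow_le_pow_right₀ hl ?_
  have : 1 ≤ cA ^ 2 := Nat.one_le_pow _ _ hc
  omega

theorem N5_YR {K r R : ℕ} {b v : ℝ} (hr : 1 ≤ r) (hK : 1 ≤ K) (hb : 0 ≤ b) (hR : (R : ℝ) + 1 ≤ v)
    (h : 400 * ((r : ℝ) * K * (R + 1)) ≤ Real.exp b) :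
    1 ≤ YR K r R ∧ YR K r R ≤ Real.exp (b * v) := by
  have hr' : (1 : ℝ) ≤ r := by exact_mod_cast hr
  have hK' : (1 : ℝ) ≤ K := by exact_mod_cast hK
  have hR' : (1 : ℝ) ≤ (R : ℝ) + 1 := by
    have : (0 : ℝ) ≤ R := Nat.cast_nonneg R
    linarith
  have h1 : (1 : ℝ) ≤ (r : ℝ) * K * (R + 1) := by
    have h2 : (1 : ℝ) ≤ (r : ℝ) * K := by nlinarith
    nlinarith
  constructor
  · unfold YR
    exact one_le_pow₀ (by linarith)
  · unfold YR
    have h3 : (400 * ((r : ℝ) * K * (R + 1))) ^ (R + 1) ≤ (Real.exp b) ^ (R + 1) :=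
      pow_le_pow_left₀ (by linarith) h _
    refine h3.trans ?_
    rw [← Real.exp_nat_mul]
    refine Real.exp_le_exp.2 ?_
    push_cast
    nlinarith

theorem N5_quarter {n : ℕ} {x : ℝ} (h : x ≤ n) : ((1 : ℝ) / 4) ^ n ≤ Real.exp (-x) := by
  have h1 : (1 : ℝ) / 4 ≤ Real.exp (-1) := by
    rw [Real.exp_neg, ← one_div]
    refine one_div_le_one_div_of_le (Real.exp_pos _) ?_
    have := Real.exp_one_lt_d9
    linarith
  calc ((1 : ℝ) / 4) ^ n ≤ (Real.exp (-1)) ^ n := pow_le_pow_left₀ (by norm_num) h1 _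
    _ = Real.exp (-(n : ℝ)) := by rw [← Real.exp_nat_mul]; ring_nf
    _ ≤ Real.exp (-x) := Real.exp_le_exp.2 (by linarith)

theorem p_N5 : S_N5 := by
  intro C₀ cA hC hc
  have hvt : Tendsto (fun l : ℝ => vv cA l) atTop atTop := by
    refine tendsto_atTop_mono' _ ?_ (tendsto_pow_atTop (α := ℝ) (n := 2) (by norm_num))
    filter_upwards [eventually_ge_atTop (1 : ℝ)] with l hl
    exact N5_vv_ge cA hc hl
  have e1 := hvt.eventually (N5_pow_exp 1600 6)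
  have e2 := N5_pow_exp 800 4
  filter_upwards [e1, e2, hvt.eventually_ge_atTop 10, eventually_ge_atTop (1 : ℝ),
    eventually_ge_atTop (3 * C₀ + 1)] with l h1 h2 hv hl hlC
  intro R K α hR hK1 hK hα hα1
  have hlv := N5_vv_ge cA hc hl
  set v := vv cA l with hvdef
  have hv0 : (0 : ℝ) < v := by linarith
  have v2 : 10 * v ≤ v ^ 2 := by nlinarith
  have v3 : 10 * v ^ 2 ≤ v ^ 3 := by nlinarith [pow_pos hv0 2]
  have v4 : 10 * v ^ 3 ≤ v ^ 4 := by nlinarith [pow_pos hv0 3]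
  have v5 : 10 * v ^ 4 ≤ v ^ 5 := by nlinarith [pow_pos hv0 4]
  have v6 : 10 * v ^ 5 ≤ v ^ 6 := by nlinarith [pow_pos hv0 5]
  have hr1 : 1 ≤ qr v := by
    unfold qr
    exact Nat.one_le_ceil_iff.2 (pow_pos hv0 3)
  have hrs1 : 1 ≤ qrs v := by
    unfold qrs
    exact Nat.one_le_ceil_iff.2 (pow_pos hv0 5)
  have hKs1 : 1 ≤ qKs v := by
    unfold qKs
    exact Nat.one_le_ceil_iff.2 (Real.exp_pos _)
  have hr2 : (qr v : ℝ) ≤ 2 * v ^ 3 := N5_ceil_le (by nlinarith)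
  have hrs2 : (qrs v : ℝ) ≤ 2 * v ^ 5 := N5_ceil_le (by nlinarith)
  have hKs2 : (qKs v : ℝ) ≤ 2 * Real.exp (v ^ 3) :=
    N5_ceil_le (Real.one_le_exp (by positivity))
  have hr0 : (0 : ℝ) ≤ qr v := Nat.cast_nonneg _
  have hrs0 : (0 : ℝ) ≤ qrs v := Nat.cast_nonneg _
  have hKs0 : (0 : ℝ) ≤ qKs v := Nat.cast_nonneg _
  have hK0 : (0 : ℝ) ≤ K := Nat.cast_nonneg _
  have hR0 : (0 : ℝ) ≤ (R : ℝ) + 1 := by positivity
  -- first base
  have b1 : 400 * ((qr v : ℝ) * K * (R + 1)) ≤ Real.exp (5 * v) := by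
    have s1 : (qr v : ℝ) * K * (R + 1) ≤ (2 * v ^ 3) * Real.exp (3 * v) * v := by
      gcongr
    have s2 : 400 * ((2 * v ^ 3) * Real.exp (3 * v) * v) ≤ Real.exp v * Real.exp (3 * v) := by
      have : 800 * v ^ 4 ≤ Real.exp v := by nlinarith
      calc 400 * ((2 * v ^ 3) * Real.exp (3 * v) * v) = (800 * v ^ 4) * Real.exp (3 * v) := by ring
        _ ≤ Real.exp v * Real.exp (3 * v) := by gcongr
    have s3 : Real.exp v * Real.exp (3 * v) ≤ Real.exp (5 * v) := by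
      rw [← Real.exp_add]
      exact Real.exp_le_exp.2 (by linarith)
    linarith
  have b2 : 400 * ((qrs v : ℝ) * (qKs v) * (R + 1)) ≤ Real.exp (2 * v ^ 3) := by
    have s1 : (qrs v : ℝ) * (qKs v) * (R + 1) ≤ (2 * v ^ 5) * (2 * Real.exp (v ^ 3)) * v := by
      gcongr
    have s2 : 400 * ((2 * v ^ 5) * (2 * Real.exp (v ^ 3)) * v) ≤ Real.exp (v ^ 3) * Real.exp (v ^ 3) := by
      have t1 : Real.exp v ≤ Real.exp (v ^ 3) := Real.exp_le_exp.2 (by nlinarith)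
      calc 400 * ((2 * v ^ 5) * (2 * Real.exp (v ^ 3)) * v) = (1600 * v ^ 6) * Real.exp (v ^ 3) := by ring
        _ ≤ Real.exp (v ^ 3) * Real.exp (v ^ 3) := by gcongr; linarith
    have s3 : Real.exp (v ^ 3) * Real.exp (v ^ 3) = Real.exp (2 * v ^ 3) := by
      rw [← Real.exp_add]; ring_nf
    linarith
  obtain ⟨y1, y2⟩ := N5_YR hr1 hK1 (by positivity) hR b1
  obtain ⟨y3, y4⟩ := N5_YR hrs1 hKs1 (by positivity) hR b2
  have y2' : YR K (qr v) R ≤ Real.exp (5 * v ^ 2) := by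
    refine y2.trans (le_of_eq ?_); ring_nf
  have y4' : YR (qKs v) (qrs v) R ≤ Real.exp (2 * v ^ 4) := by
    refine y4.trans (le_of_eq ?_); ring_nf
  refine ⟨y1, y3, y2', y4', ?_, ?_, ?_, hr1, hrs1, hKs1⟩
  · -- (1/4)^rs YR ≤ qpi
    have q1 : ((1 : ℝ) / 4) ^ (qrs v) ≤ Real.exp (-(v ^ 5)) := N5_quarter (Nat.le_ceil _)
    calc ((1 : ℝ) / 4) ^ (qrs v) * YR (qKs v) (qrs v) R
        ≤ Real.exp (-(v ^ 5)) * Real.exp (2 * v ^ 4) := by
          refine mul_le_mul q1 y4' (by linarith) (Real.exp_pos _).le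
      _ = Real.exp (-(v ^ 5) + 2 * v ^ 4) := by rw [Real.exp_add]
      _ ≤ qpi v := by
          unfold qpi
          exact Real.exp_le_exp.2 (by nlinarith [pow_pos hv0 4])
  · have q1 : ((1 : ℝ) / 4) ^ (qr v) ≤ Real.exp (-(v ^ 3)) := N5_quarter (Nat.le_ceil _)
    have a1 : 100 * ((1 : ℝ) / 4) ^ (qr v) * YR K (qr v) R ≤ 100 * Real.exp (-(v ^ 2)) := by
      calc 100 * ((1 : ℝ) / 4) ^ (qr v) * YR K (qr v) R
          ≤ 100 * Real.exp (-(v ^ 3)) * Real.exp (5 * v ^ 2) := by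
            refine mul_le_mul (by linarith) y2' (by linarith) (by positivity)
        _ = 100 * Real.exp (-(v ^ 3) + 5 * v ^ 2) := by rw [Real.exp_add]; ring
        _ ≤ 100 * Real.exp (-(v ^ 2)) := by
            refine mul_le_mul_of_nonneg_left (Real.exp_le_exp.2 (by nlinarith [pow_pos hv0 2])) (by norm_num)
    have hq : 0 < qal C₀ l := Real.exp_pos _
    have a2 : (qal C₀ l / 2) ^ 3 ≤ α ^ 3 := pow_le_pow_left₀ (by positivity) hα 3
    have a3 : (qal C₀ l / 2) ^ 3 = Real.exp (-(3 * C₀ * l)) / 8 := by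
      unfold qal
      rw [div_pow, ← Real.exp_nat_mul]
      norm_num
      ring_nf
    have hcA : (1 : ℝ) ≤ cA := by exact_mod_cast hc
    have hl4 : (0 : ℝ) < l ^ 4 := by positivity
    have a4 : 1 / l ^ 4 ≤ qfl cA l := by
      unfold qfl
      gcongr
    have a5 : 1 / l ^ 4 * (Real.exp (-(3 * C₀ * l)) / 8) ≤ qfl cA l * α ^ 3 := by
      refine mul_le_mul a4 (by rw [← a3]; exact a2) (by positivity) (le_trans (by positivity) a4)
    refine a1.trans (le_trans ?_ a5)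
    -- 100 exp(-v^2) ≤ exp(-3C₀ l)/(8 l^4)
    have a6 : l ^ 2 ≤ v ^ 2 := by nlinarith
    have a7 : Real.exp (-(v ^ 2)) ≤ Real.exp (-(3 * C₀ * l)) * Real.exp (-l) := by
      rw [← Real.exp_add]
      refine Real.exp_le_exp.2 ?_
      nlinarith
    have a8 : 800 * l ^ 4 * Real.exp (-l) ≤ 1 := by
      rw [Real.exp_neg, ← div_eq_mul_inv, div_le_one (Real.exp_pos _)]
      exact h2
    have a9 : 100 * Real.exp (-l) ≤ 1 / l ^ 4 / 8 := by
      rw [div_div, le_div_iff₀ (by positivity)]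
      nlinarith
    calc 100 * Real.exp (-(v ^ 2)) ≤ 100 * (Real.exp (-(3 * C₀ * l)) * Real.exp (-l)) := by linarith
      _ = Real.exp (-(3 * C₀ * l)) * (100 * Real.exp (-l)) := by ring
      _ ≤ Real.exp (-(3 * C₀ * l)) * (1 / l ^ 4 / 8) := by
          exact mul_le_mul_of_nonneg_left a9 (Real.exp_pos _).le
      _ = 1 / l ^ 4 * (Real.exp (-(3 * C₀ * l)) / 8) := by ring
  · have k1 : Real.exp (v ^ 3) ≤ (qKs v : ℝ) := Nat.le_ceil _
    have k2 : Real.exp (v ^ 3) * qts v = 1 := by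
      unfold qts
      rw [← Real.exp_add]; simp
    rw [← k2]
    exact mul_le_mul_of_nonneg_right k1 (Real.exp_pos _).le

end Pool.Agent.APP
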