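import Pool.Agent.Lib.MP_8a4e59_co.G.Num

set_option autoImplicit false

/-!
(N7) of the assembly of `S_main` (MP_8a4e59_co), proved from elementary estimates.   (helper99)
-/

namespace Pool.Agent.APP

open Finset

/-- ceiling of an exponential -/
theorem N7_ceil (x : ℝ) (hx : 0 ≤ x) : ((⌈Real.exp x⌉₊ : ℕ) : ℝ) ≤ Real.exp (x + 1) := by
  have h1 : ((⌈Real.exp x⌉₊ : ℕ) : ℝ) < Real.exp x + 1 := Nat.ceil_lt_add_one (Real.exp_pos x).le
  have h2 : 1 ≤ Real.exp x := Real.one_le_exp hx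
  have h3 : (2 : ℝ) ≤ Real.exp 1 := by
    have := Real.add_one_le_exp (1 : ℝ)
    linarith
  have h4 : Real.exp (x + 1) = Real.exp x * Real.exp 1 := Real.exp_add x 1
  nlinarith

theorem N7_vv (cA : ℕ) (l : ℝ) (hc : 1 ≤ cA) (hl : 1 ≤ l) : l ^ 40 ≤ vv cA l := by
  unfold vv
  apply pow_le_pow_right₀ hl
  nlinarith [Nat.pow_le_pow_left hc 2]

/-- a power of a natural number bounded by an exponential -/
theorem N7_pow (Y J : ℕ) (x y : ℝ) (hY : (Y : ℝ) ≤ Real.exp x) (hx : 0 ≤ x) (hJ : (J : ℝ) ≤ y) :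
    (Y : ℝ) ^ J ≤ Real.exp (x * y) := by
  calc (Y : ℝ) ^ J ≤ (Real.exp x) ^ J := pow_le_pow_left₀ (Nat.cast_nonneg Y) hY J
    _ = Real.exp (J * x) := (Real.exp_nat_mul x J).symm
    _ ≤ Real.exp (x * y) := by
      apply Real.exp_le_exp.mpr
      nlinarith

theorem p_N7 : S_N7 := by
  intro C₀ cA s hC hA hs
  filter_upwards [Filter.eventually_ge_atTop (25 * C₀ + 1), Filter.eventually_ge_atTop (10 : ℝ)] with l hlc hl
  have hl1 : (1 : ℝ) ≤ l := by linarith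
  have hl0 : (0 : ℝ) ≤ l := by linarith
  have hv40 := N7_vv cA l hA hl1
  set v := vv cA l with hv
  have hl4 : l ^ 4 ≤ l ^ 40 := pow_le_pow_right₀ hl1 (by norm_num)
  have hl40 : l ≤ l ^ 40 := by
    calc l = l ^ 1 := (pow_one l).symm
      _ ≤ l ^ 40 := pow_le_pow_right₀ hl1 (by norm_num)
  have hv10 : (10 : ℝ) ≤ v := by linarith
  have hv1 : (1 : ℝ) ≤ v := by linarith
  have hv0 : (0 : ℝ) ≤ v := by linarith
  have hcl : 0 ≤ (25 * C₀ + 1) * l := by positivity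
  -- Q₀
  have hQ0 : 1 ≤ qQ0 C₀ l := Real.one_le_exp hcl
  have hQ : qQ0 C₀ l ≤ qQ s l := by
    apply Real.exp_le_exp.mpr
    calc (25 * C₀ + 1) * l ≤ l * l := mul_le_mul_of_nonneg_right hlc hl0
      _ = l ^ 2 := by ring
      _ ≤ l ^ (s + 1) := by
        apply pow_le_pow_right₀ hl1
        have : 1 ≤ cA ^ 2 := Nat.one_le_pow _ _ hA
        omega
  -- D₀
  have hk0 : ((qk0 l : ℕ) : ℝ) ≤ l + 1 := (Nat.ceil_lt_add_one hl0).le
  have hpow : qQ0 C₀ l ^ (qk0 l + 1) = Real.exp (((qk0 l + 1 : ℕ) : ℝ) * ((25 * C₀ + 1) * l)) :=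
    (Real.exp_nat_mul _ _).symm
  have hD0 : (qD0 C₀ l : ℝ) ≤ Real.exp v := by
    have h1 : (qD0 C₀ l : ℝ) ≤ Real.exp (((qk0 l + 1 : ℕ) : ℝ) * ((25 * C₀ + 1) * l) + 1) := by
      unfold qD0
      rw [hpow]
      exact N7_ceil _ (by positivity)
    refine h1.trans (Real.exp_le_exp.mpr ?_)
    have h2 : ((qk0 l + 1 : ℕ) : ℝ) ≤ 2 * l := by
      push_cast
      linarith
    have h3 : (25 * C₀ + 1) * l ≤ l ^ 2 := by nlinarith
    have h4 : ((qk0 l + 1 : ℕ) : ℝ) * ((25 * C₀ + 1) * l) ≤ 2 * l * l ^ 2 :=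
      mul_le_mul h2 h3 hcl (by positivity)
    have h5 : 2 * l * l ^ 2 + 1 ≤ l ^ 4 := by
      have e1 : l ^ 3 * 10 ≤ l ^ 3 * l := mul_le_mul_of_nonneg_left hl (by positivity)
      have e2 : (1 : ℝ) ≤ l ^ 3 := one_le_pow₀ hl1
      nlinarith
    linarith
  have hD01 : 1 ≤ qD0 C₀ l := by
    unfold qD0
    rw [Nat.one_le_ceil_iff]
    positivity
  have hv5 : v ≤ v ^ 5 := by
    calc v = v ^ 1 := (pow_one v).symm
      _ ≤ v ^ 5 := pow_le_pow_right₀ hv1 (by norm_num)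
  have hDY : qD0 C₀ l ≤ qY v := by
    have : (qD0 C₀ l : ℝ) ≤ ((qY v : ℕ) : ℝ) := by
      calc (qD0 C₀ l : ℝ) ≤ Real.exp v := hD0
        _ ≤ Real.exp (v ^ 5) := Real.exp_le_exp.mpr hv5
        _ ≤ _ := Nat.le_ceil _
    exact_mod_cast this
  have hDD : qD0 C₀ l ≤ qD s l := by
    unfold qD0 qD
    apply Nat.ceil_le_ceil
    calc qQ0 C₀ l ^ (qk0 l + 1) ≤ qQ0 C₀ l ^ (qk l + 1) := by
          apply pow_le_pow_right₀ hQ0
          have : qk0 l ≤ qk l := by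
            unfold qk0 qk
            apply Nat.ceil_le_ceil
            nlinarith
          omega
      _ ≤ qQ s l ^ (qk l + 1) := pow_le_pow_left₀ (by linarith) hQ _
  -- Y^Jq
  have hYe : ((qY v : ℕ) : ℝ) ≤ Real.exp (v ^ 5 + 1) := N7_ceil _ (by positivity)
  have hJq : ((qJq v : ℕ) : ℝ) ≤ v ^ 5 + 1 := (Nat.ceil_lt_add_one (by positivity)).le
  have hYJ : ((qY v : ℕ) : ℝ) ^ (qJq v) ≤ Real.exp ((v ^ 5 + 1) * (v ^ 5 + 1)) :=
    N7_pow _ _ _ _ hYe (by positivity) hJq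
  have p5 : v ^ 5 ≤ v ^ 10 := pow_le_pow_right₀ hv1 (by norm_num)
  have p1 : v ≤ v ^ 10 := by
    calc v = v ^ 1 := (pow_one v).symm
      _ ≤ v ^ 10 := pow_le_pow_right₀ hv1 (by norm_num)
  have p0 : 1 ≤ v ^ 10 := one_le_pow₀ hv1
  have p11 : 10 * v ^ 10 ≤ v ^ 11 := by
    calc 10 * v ^ 10 ≤ v * v ^ 10 := mul_le_mul_of_nonneg_right hv10 (by positivity)
      _ = v ^ 11 := by ring
  have hexp : (v ^ 5 + 1) * (v ^ 5 + 1) = v ^ 10 + 2 * v ^ 5 + 1 := by ring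
  have hYJ2 : ((qY v : ℕ) : ℝ) ^ (qJq v) ≤ Real.exp (v ^ 11) := by
    refine hYJ.trans (Real.exp_le_exp.mpr ?_)
    rw [hexp]
    linarith
  have h2e : (2 : ℝ) ≤ Real.exp 1 := by
    have := Real.add_one_le_exp (1 : ℝ)
    linarith
  have hE : 2 * (qY v ^ (qJq v) * qD0 C₀ l) ≤ qE v := by
    have : ((2 * (qY v ^ (qJq v) * qD0 C₀ l) : ℕ) : ℝ) ≤ ((qE v : ℕ) : ℝ) := by
      push_cast
      calc 2 * (((qY v : ℕ) : ℝ) ^ (qJq v) * (qD0 C₀ l : ℝ)) ≤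
          Real.exp 1 * (Real.exp ((v ^ 5 + 1) * (v ^ 5 + 1)) * Real.exp v) := by
            gcongr
        _ = Real.exp (1 + ((v ^ 5 + 1) * (v ^ 5 + 1) + v)) := by
            rw [Real.exp_add, Real.exp_add]
        _ ≤ Real.exp (v ^ 11) := by
            apply Real.exp_le_exp.mpr
            rw [hexp]
            linarith
        _ ≤ _ := Nat.le_ceil _
    exact_mod_cast this
  have hE1 : 1 ≤ qE v := by
    unfold qE
    rw [Nat.one_le_ceil_iff]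
    positivity
  have hEJ : ((qE v : ℕ) : ℝ) ^ (qJ l) ≤ Real.exp (v ^ 12) := by
    have hEe : ((qE v : ℕ) : ℝ) ≤ Real.exp (v ^ 11 + 1) := N7_ceil _ (by positivity)
    have hJ : ((qJ l : ℕ) : ℝ) ≤ l ^ 10 + 1 := (Nat.ceil_lt_add_one (by positivity)).le
    refine (N7_pow _ _ _ _ hEe (by positivity) hJ).trans (Real.exp_le_exp.mpr ?_)
    have e1 : (1 : ℝ) ≤ v ^ 11 := one_le_pow₀ hv1
    have e2 : (1 : ℝ) ≤ l ^ 10 := one_le_pow₀ hl1
    have e3 : (10 : ℝ) * l ^ 10 ≤ l ^ 11 := by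
      calc 10 * l ^ 10 ≤ l * l ^ 10 := mul_le_mul_of_nonneg_right hl (by positivity)
        _ = l ^ 11 := by ring
    have e4 : l ^ 11 ≤ l ^ 40 := pow_le_pow_right₀ hl1 (by norm_num)
    calc (v ^ 11 + 1) * (l ^ 10 + 1) ≤ (2 * v ^ 11) * (2 * l ^ 10) := by
          apply mul_le_mul (by linarith) (by linarith) (by positivity) (by positivity)
      _ = v ^ 11 * (4 * l ^ 10) := by ring
      _ ≤ v ^ 11 * v := by
          apply mul_le_mul_of_nonneg_left _ (by positivity)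
          linarith
      _ = v ^ 12 := by ring
  exact ⟨hD0, hDY, hDD, hD01, hE, hE1, hEJ, hYJ2, hQ0, hQ⟩

end Pool.Agent.APP
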