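import Pool.Agent.Lib.MP_8a4e59_co.G.Num
import Pool.Agent.Lib.MP_8a4e59_co.P.Q02

set_option autoImplicit false

/-!
Inequality (N8) of the parameter choice (MP_8a4e59_co).   (helper13)
-/

namespace Pool.Agent.APP

open Finset

theorem N8_one {p : ℕ} (hp : p.Prime) : 1 ≤ (1 - 1 / (p : ℝ))⁻¹ := by
  have h2 : (2 : ℝ) ≤ p := by exact_mod_cast hp.two_le
  have h3 : 1 / (p : ℝ) ≤ 1 / 2 := one_div_le_one_div_of_le (by norm_num) h2
  have h4 : 0 < 1 / (p : ℝ) := by positivity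
  rw [one_le_inv₀ (by linarith)]
  linarith

theorem N8_two {p : ℕ} (hp : p.Prime) : 1 + 1 / (p : ℝ) ≤ (1 - 1 / (p : ℝ))⁻¹ := by
  have h2 : (2 : ℝ) ≤ p := by exact_mod_cast hp.two_le
  have h3 : 1 / (p : ℝ) ≤ 1 / 2 := one_div_le_one_div_of_le (by norm_num) h2
  have h4 : 0 < 1 / (p : ℝ) := by positivity
  rw [← one_div, le_div_iff₀ (by linarith)]
  nlinarith

theorem N8_ge {P : Finset ℕ} (hP : ∀ p ∈ P, p.Prime) : 1 ≤ VP P := by
  have h := Finset.prod_le_prod (s := P) (f := fun _ : ℕ => (1 : ℝ))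
    (g := fun p : ℕ => (1 - 1 / (p : ℝ))⁻¹) (fun _ _ => zero_le_one)
    (fun p hp => N8_one (hP p hp))
  simpa [VP] using h

/-- the basic bounds for the products over primes -/
theorem N8_base {Q : ℝ} (hQ : 3 ≤ Q) (m : ℕ) :
    1 ≤ VP (PQ Q m) ∧ VP (PQ Q m) ≤ 1000 * Real.log Q ∧
    ∏ p ∈ PQ Q m, (1 + 1 / (p : ℝ)) ≤ VP (PQ Q m) ∧
    ∏ p ∈ PQ Q m, (1 + 8 / (p : ℝ)) ≤ VP (PQ Q m) ^ 8 ∧
    ∑ p ∈ PQ Q m, 1 / (p : ℝ) ≤ Real.log (VP (PQ Q m)) := by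
  have hpr : ∀ p ∈ PQ Q m, p.Prime := fun p hp => (mem_filter.1 hp).2.1
  have hsub : PQ Q m ⊆ (Finset.Icc 1 ⌊Q⌋₊).filter Nat.Prime := by
    intro p hp
    rw [PQ, mem_filter] at hp
    exact mem_filter.2 ⟨hp.1, hp.2.1⟩
  have hV1 := N8_ge hpr
  refine ⟨hV1, ?_, ?_, ?_, ?_⟩
  · have h1 : CQ Q ≤ 1000 * Real.log Q := (_root_.Pool.Agent.APP.Q.q_tru Q 1 (by linarith)).2.2.2
    refine le_trans ?_ h1
    have h2 : VP ((Finset.Icc 1 ⌊Q⌋₊).filter Nat.Prime \ PQ Q m) * VP (PQ Q m) =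
        VP ((Finset.Icc 1 ⌊Q⌋₊).filter Nat.Prime) := Finset.prod_sdiff hsub
    have h3 : 1 ≤ VP ((Finset.Icc 1 ⌊Q⌋₊).filter Nat.Prime \ PQ Q m) :=
      N8_ge fun p hp => (mem_filter.1 (mem_sdiff.1 hp).1).2
    have h4 : CQ Q = VP ((Finset.Icc 1 ⌊Q⌋₊).filter Nat.Prime) := rfl
    rw [h4, ← h2]
    nlinarith
  · exact Finset.prod_le_prod (fun p _ => by positivity) fun p hp => N8_two (hpr p hp)
  · unfold VP
    rw [← Finset.prod_pow]
    refine Finset.prod_le_prod (fun p hp => by positivity) fun p hp => ?_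
    have h3 := N8_two (hpr p hp)
    have h4 : (0 : ℝ) ≤ 1 / (p : ℝ) := by positivity
    have h5 : 1 + 8 * (1 / (p : ℝ)) ≤ (1 + 1 / (p : ℝ)) ^ 8 := by
      have := one_add_mul_le_pow (a := 1 / (p : ℝ)) (by linarith) 8
      push_cast at this
      exact this
    calc (1 + 8 / (p : ℝ)) = 1 + 8 * (1 / (p : ℝ)) := by ring
      _ ≤ (1 + 1 / (p : ℝ)) ^ 8 := h5
      _ ≤ _ := pow_le_pow_left₀ (by linarith) h3 8
  · unfold VP
    rw [Real.log_prod fun p hp => ?_]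
    · refine Finset.sum_le_sum fun p hp => ?_
      have h4 : (2 : ℝ) ≤ p := by exact_mod_cast (hpr p hp).two_le
      have h5 : 1 / (p : ℝ) ≤ 1 / 2 := one_div_le_one_div_of_le (by norm_num) h4
      rw [Real.log_inv]
      have h6 := Real.log_le_sub_one_of_pos (x := 1 - 1 / (p : ℝ)) (by linarith)
      linarith
    · have h3 := N8_one (hpr p hp)
      linarith

/-- `x^n/n! ≤ exp(3x - n)` -/
theorem N8_fac {x : ℝ} (hx : 0 ≤ x) (n : ℕ) :
    x ^ n / (n.factorial : ℝ) ≤ Real.exp (3 * x - n) := by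
  have h1 := Real.pow_div_factorial_le_exp (Real.exp 1 * x) (by positivity) n
  have h2 : (Real.exp 1 * x) ^ n = Real.exp n * x ^ n := by
    rw [mul_pow, ← Real.exp_nat_mul, mul_one]
  rw [h2] at h1
  have h3 : Real.exp (n : ℝ) * (x ^ n / (n.factorial : ℝ)) ≤ Real.exp (3 * x) := by
    rw [← mul_div_assoc]
    refine h1.trans (Real.exp_le_exp.2 ?_)
    have := Real.exp_one_lt_d9
    nlinarith
  rw [Real.exp_sub, le_div_iff₀ (Real.exp_pos _), mul_comm]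
  exact h3

theorem p_N8 : S_N8 := by
  intro C₀ cA hC hcA
  set A : ℝ := 25 * C₀ + 1 with hA
  have hA1 : 1 ≤ A := by rw [hA]; linarith
  have hcA' : (1 : ℝ) ≤ cA := by exact_mod_cast hcA
  set L₀ : ℝ := 10 ^ 9 * A ^ 2 * cA with hL₀
  filter_upwards [Filter.eventually_ge_atTop L₀] with l hl m
  have hA2 : A ≤ A ^ 2 := by nlinarith
  have hA3 : 1 ≤ A ^ 2 := by nlinarith
  have hl1 : 10 ^ 9 * A ≤ l := by
    refine le_trans ?_ hl
    rw [hL₀]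
    nlinarith
  have hl2 : 10 ^ 9 * (A ^ 2 * cA) ≤ l := by
    refine le_trans (le_of_eq ?_) hl
    rw [hL₀]; ring
  have hl9 : (10 : ℝ) ^ 9 ≤ l := by nlinarith
  have hl0 : 0 < l := by linarith [show (0 : ℝ) < 10 ^ 9 by norm_num]
  have hlog : Real.log (qQ0 C₀ l) = A * l := by rw [qQ0, Real.log_exp]
  have hQ3 : 3 ≤ qQ0 C₀ l := by
    rw [qQ0]
    have h1 := Real.add_one_le_exp ((25 * C₀ + 1) * l)
    have h2 : l ≤ (25 * C₀ + 1) * l := by nlinarith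
    linarith [show (3 : ℝ) ≤ 10 ^ 9 by norm_num]
  obtain ⟨b1, b2, b3, -, b5⟩ := N8_base hQ3 m
  rw [hlog] at b2
  set V := VP (PQ (qQ0 C₀ l) m) with hV
  set S := ∑ p ∈ PQ (qQ0 C₀ l) m, 1 / (p : ℝ) with hS
  have hS0 : 0 ≤ S := Finset.sum_nonneg fun p _ => by positivity
  have hexp6 : 1000 * (A * l) ≤ Real.exp (l / 6) := by
    have h1 := Real.quadratic_le_exp_of_nonneg (x := l / 6) (by positivity)
    nlinarith
  have hSl : S ≤ l / 6 := by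
    refine b5.trans ?_
    rw [← Real.log_exp (l / 6)]
    exact Real.log_le_log (by linarith) (b2.trans hexp6)
  have hk : l ≤ ((qk0 l + 1 : ℕ) : ℝ) := by
    have := Nat.le_ceil l
    rw [qk0]
    push_cast
    linarith
  have h1 : S ^ (qk0 l + 1) / ((qk0 l + 1).factorial : ℝ) ≤ Real.exp (-(l / 2)) := by
    refine (N8_fac hS0 _).trans (Real.exp_le_exp.2 ?_)
    linarith
  have h2 : Real.exp (-(l / 2)) ≤ 8 / l ^ 2 := by
    have h3 := Real.quadratic_le_exp_of_nonneg (x := l / 2) (by positivity)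
    rw [Real.exp_neg, ← one_div, div_le_div_iff₀ (Real.exp_pos _) (by positivity)]
    nlinarith
  have hP : ∏ p ∈ PQ (qQ0 C₀ l) m, (1 + 1 / (p : ℝ)) ≤ 1000 * (A * l) := b3.trans b2
  have hP0 : 0 ≤ ∏ p ∈ PQ (qQ0 C₀ l) m, (1 + 1 / (p : ℝ)) :=
    Finset.prod_nonneg fun p _ => by positivity
  have hfl : qfl cA l = cA / l ^ 4 := rfl
  have h4 : 2 * S ^ (qk0 l + 1) / ((qk0 l + 1).factorial : ℝ) ≤ 16 / l ^ 2 := by
    rw [mul_div_assoc]
    have : 16 / l ^ 2 = 2 * (8 / l ^ 2) := by ring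
    rw [this]
    linarith
  have h5 : 20 * qfl cA l * ∏ p ∈ PQ (qQ0 C₀ l) m, (1 + 1 / (p : ℝ)) ≤
      20000 * (A * cA) / l ^ 3 := by
    rw [hfl]
    calc 20 * (cA / l ^ 4) * ∏ p ∈ PQ (qQ0 C₀ l) m, (1 + 1 / (p : ℝ))
        ≤ 20 * (cA / l ^ 4) * (1000 * (A * l)) := mul_le_mul_of_nonneg_left hP (by positivity)
      _ = 20000 * (A * cA) / l ^ 3 := by field_simp; ring
  have h6 : 0 ≤ 2 * S ^ (qk0 l + 1) / ((qk0 l + 1).factorial : ℝ) := by positivity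
  have h7 : 0 ≤ 20 * qfl cA l * ∏ p ∈ PQ (qQ0 C₀ l) m, (1 + 1 / (p : ℝ)) := by
    rw [hfl]; positivity
  calc V * (2 * S ^ (qk0 l + 1) / ((qk0 l + 1).factorial : ℝ) +
        20 * qfl cA l * ∏ p ∈ PQ (qQ0 C₀ l) m, (1 + 1 / (p : ℝ)))
      ≤ (1000 * (A * l)) * (16 / l ^ 2 + 20000 * (A * cA) / l ^ 3) :=
        mul_le_mul b2 (add_le_add h4 h5) (add_nonneg h6 h7) (by positivity)
    _ = 16000 * A / l + 2 * 10 ^ 7 * (A ^ 2 * cA) / l ^ 2 := by field_simp; ring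
    _ ≤ 1 / 8 + 1 / 8 := by
        refine add_le_add ?_ ?_
        · rw [div_le_div_iff₀ hl0 (by norm_num)]
          nlinarith
        · rw [div_le_div_iff₀ (by positivity) (by norm_num)]
          have h8 : l ≤ l ^ 2 := by nlinarith
          nlinarith
    _ = 1 / 4 := by norm_num

end Pool.Agent.APP
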