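import Pool.Agent.Lib.MP_8a4e59_co.G.P.N8

set_option autoImplicit false

/-!
Inequality (N9) of the parameter choice (MP_8a4e59_co).   (helper13)
-/

namespace Pool.Agent.APP

open Finset

theorem N9_ev (c : ℝ) (n : ℕ) : ∀ᶠ l : ℝ in Filter.atTop, c * l ^ n ≤ Real.exp l := by
  have h := ((Real.isLittleO_pow_exp_atTop (n := n)).const_mul_left c).bound one_pos
  filter_upwards [h] with l hl
  rw [one_mul, Real.norm_eq_abs, Real.norm_eq_abs, Real.abs_exp] at hl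
  exact (le_abs_self _).trans hl

theorem N9_piece {c x y l : ℝ} (h : c * (4 * 512 ^ 8) ≤ Real.exp l) (hx : l + x ≤ y) :
    c * Real.exp x ≤ Real.exp y / (4 * 512 ^ 8) := by
  rw [le_div_iff₀ (by norm_num)]
  calc c * Real.exp x * (4 * 512 ^ 8) = (c * (4 * 512 ^ 8)) * Real.exp x := by ring
    _ ≤ Real.exp l * Real.exp x := mul_le_mul_of_nonneg_right h (Real.exp_pos _).le
    _ = Real.exp (l + x) := (Real.exp_add _ _).symm
    _ ≤ Real.exp y := Real.exp_le_exp.2 hx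

theorem N9_D {l : ℝ} (hl : 2 ≤ l) (s : ℕ) : (qD s l : ℝ) ≤ 2 * Real.exp (2 * l ^ (s + 3)) := by
  have h0 : (0 : ℝ) ≤ l ^ (s + 1) := by positivity
  have hk : ((qk l + 1 : ℕ) : ℝ) ≤ 2 * l ^ 2 := by
    have := Nat.ceil_lt_add_one (a := l ^ 2) (by positivity)
    rw [qk]
    push_cast
    nlinarith
  have h1 : qQ s l ^ (qk l + 1) ≤ Real.exp (2 * l ^ (s + 3)) := by
    rw [qQ, ← Real.exp_nat_mul]
    refine Real.exp_le_exp.2 ?_
    calc ((qk l + 1 : ℕ) : ℝ) * l ^ (s + 1) ≤ 2 * l ^ 2 * l ^ (s + 1) :=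
          mul_le_mul_of_nonneg_right hk h0
      _ = 2 * l ^ (s + 3) := by rw [mul_assoc, ← pow_add]; congr 2; ring
  have h2 : 1 ≤ Real.exp (2 * l ^ (s + 3)) := Real.one_le_exp (by positivity)
  have h3 : 0 ≤ qQ s l ^ (qk l + 1) := by rw [qQ]; positivity
  have h4 := (Nat.ceil_lt_add_one h3).le
  rw [qD]
  linarith

theorem N9_8 {l : ℝ} (hl : 2 ≤ l) : (8 : ℝ) ^ (qk l + 1) ≤ Real.exp (6 * l ^ 2) := by
  have hk : ((qk l + 1 : ℕ) : ℝ) ≤ 2 * l ^ 2 := by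
    have := Nat.ceil_lt_add_one (a := l ^ 2) (by positivity)
    rw [qk]
    push_cast
    nlinarith
  have h8 : (8 : ℝ) ≤ Real.exp 3 := by
    have := Real.quadratic_le_exp_of_nonneg (x := 3) (by norm_num)
    linarith
  calc (8 : ℝ) ^ (qk l + 1) ≤ Real.exp 3 ^ (qk l + 1) := pow_le_pow_left₀ (by norm_num) h8 _
    _ = Real.exp (((qk l + 1 : ℕ) : ℝ) * 3) := by rw [Real.exp_nat_mul]
    _ ≤ Real.exp (6 * l ^ 2) := Real.exp_le_exp.2 (by linarith)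

theorem N9_Y {v : ℝ} : Real.exp (v ^ 5 / 2) ≤ Real.sqrt (qY v) := by
  rw [Real.exp_half]
  exact Real.sqrt_le_sqrt (Nat.le_ceil _)

theorem N9_U {v Ya Yb : ℝ} (hv : 30 ≤ v) (ha : 1 ≤ Ya) (hb : 1 ≤ Yb)
    (ha' : Ya ≤ Real.exp (5 * v ^ 2)) (hb' : Yb ≤ Real.exp (2 * v ^ 4)) :
    (1 + (6 * Ya + 6 * Yb)) ^ 7 ≤ 13 ^ 7 * Real.exp (14 * v ^ 4) := by
  have h0 : 5 * v ^ 2 ≤ 2 * v ^ 4 := by
    have : v ^ 4 = v ^ 2 * v ^ 2 := by ring
    have h2 : (900 : ℝ) ≤ v ^ 2 := by nlinarith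
    rw [this]
    nlinarith
  have h1 : Real.exp (5 * v ^ 2) ≤ Real.exp (2 * v ^ 4) := Real.exp_le_exp.2 h0
  have h2 : 1 ≤ Real.exp (2 * v ^ 4) := Real.one_le_exp (by positivity)
  have h3 : 1 + (6 * Ya + 6 * Yb) ≤ 13 * Real.exp (2 * v ^ 4) := by linarith
  calc (1 + (6 * Ya + 6 * Yb)) ^ 7 ≤ (13 * Real.exp (2 * v ^ 4)) ^ 7 :=
        pow_le_pow_left₀ (by linarith) h3 7
    _ = 13 ^ 7 * Real.exp (14 * v ^ 4) := by
        rw [mul_pow, ← Real.exp_nat_mul]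
        congr 2
        push_cast
        ring

theorem N9_sum {T1 W T2 U T3 T4 A2 A3 A4 A5 E : ℝ} {l : ℝ} (_hW0 : 0 ≤ W)
    (hW : W ≤ Real.exp l) (h20 : 0 ≤ T2) (h2 : T2 ≤ 2 * Real.exp A2) (hU0 : 0 ≤ U)
    (hU : U ≤ 13 ^ 7 * Real.exp A3) (h30 : 0 ≤ T3)
    (h3 : T3 ≤ 2 * 8 ^ 64 * Real.exp A4 * Real.exp l) (h40 : 0 ≤ T4)
    (h4 : T4 ≤ 16 * Real.exp A5) (g1 : T1 ≤ E / (4 * 512 ^ 8))
    (g2 : 512 * Real.exp (l + A2) ≤ E / (4 * 512 ^ 8))
    (g3 : (256 * 7 * 13 ^ 7 * 2 * 8 ^ 64) * Real.exp (l + A3 + A4 + l) ≤ E / (4 * 512 ^ 8))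
    (g4 : (256 * 7 * 13 ^ 7 * 16) * Real.exp (l + A3 + A5) ≤ E / (4 * 512 ^ 8)) :
    T1 + 256 * W * (T2 + 7 * U * (T3 + T4)) ≤ E / 512 ^ 8 := by
  have e : 0 ≤ Real.exp l := (Real.exp_pos _).le
  calc T1 + 256 * W * (T2 + 7 * U * (T3 + T4))
      ≤ T1 + 256 * Real.exp l * (2 * Real.exp A2 + 7 * (13 ^ 7 * Real.exp A3) *
        (2 * 8 ^ 64 * Real.exp A4 * Real.exp l + 16 * Real.exp A5)) := by
        gcongr
    _ = T1 + 512 * Real.exp (l + A2) +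
        (256 * 7 * 13 ^ 7 * 2 * 8 ^ 64) * Real.exp (l + A3 + A4 + l) +
        (256 * 7 * 13 ^ 7 * 16) * Real.exp (l + A3 + A5) := by
        rw [Real.exp_add l A2, Real.exp_add (l + A3 + A4), Real.exp_add (l + A3),
          Real.exp_add l A3, Real.exp_add (l + A3), Real.exp_add l A3]
        ring
    _ ≤ E / (4 * 512 ^ 8) + E / (4 * 512 ^ 8) + E / (4 * 512 ^ 8) + E / (4 * 512 ^ 8) := by
        gcongr
    _ = E / 512 ^ 8 := by ring

theorem N9_i1 {C₀ l : ℝ} (hC : 0 < C₀) (hl : 0 < l) :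
    l + -((25 * C₀ + 1) * l) ≤ -(24 * C₀ * l) := by
  have h : 0 < C₀ * l := mul_pos hC hl
  have h1 : (25 * C₀ + 1) * l = 25 * (C₀ * l) + l := by ring
  have h2 : 24 * C₀ * l = 24 * (C₀ * l) := by ring
  rw [h1, h2]
  linarith

theorem N9_i2 {C₀ l : ℝ} (hC : 0 < C₀) (hl : 100 + 24 * C₀ ≤ l) :
    l + (l + (3 * l - l ^ 2)) ≤ -(24 * C₀ * l) := by
  have h1 : (100 + 24 * C₀) * l ≤ l * l := mul_le_mul_of_nonneg_right hl (by linarith)
  have h2 : l * l = l ^ 2 := by ring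
  have h3 : (100 + 24 * C₀) * l = 100 * l + 24 * C₀ * l := by ring
  rw [h2, h3] at h1
  linarith

theorem N9_i3 {C₀ l v : ℝ} (hC : 0 < C₀) (hl : 100 + 24 * C₀ ≤ l) (hv : l ≤ v) :
    l + (l + 14 * v ^ 4 + -(v ^ 5 / 2) + l) ≤ -(24 * C₀ * l) := by
  have hl100 : 100 ≤ l := by linarith
  have h0 : (0 : ℝ) ≤ v ^ 4 := by positivity
  have h1 : v ^ 5 = v ^ 4 * v := by ring
  have h2 : v ^ 4 * 30 ≤ v ^ 5 := by
    rw [h1]
    exact mul_le_mul_of_nonneg_left (by linarith) h0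
  have h3 : l * l ≤ v ^ 4 := by
    have h4 : l * l ≤ v * v := mul_le_mul hv hv (by linarith) (by linarith)
    have h5 : v * v = v ^ 2 := by ring
    rw [h5] at h4
    exact h4.trans (pow_le_pow_right₀ (by linarith) (by norm_num))
  have h5 : (100 + 24 * C₀) * l ≤ l * l := mul_le_mul_of_nonneg_right hl (by linarith)
  have h6 : (100 + 24 * C₀) * l = 100 * l + 24 * C₀ * l := by ring
  rw [h6] at h5
  linarith

theorem N9_i4 {C₀ l x y z w E : ℝ} (_hC : 0 < C₀) (hE : 0 < E) (_hl : 0 < l) (f3 : 12 * 14 * x ≤ E)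
    (f4 : 12 * 4 * y ≤ E) (f5 : 12 * 6 * z ≤ E) (f6 : 12 * w ≤ E)
    (f7 : 12 * (3 + 24 * C₀) * l ≤ E) :
    l + (l + 14 * x + (4 * y + 6 * z + w - E / 2)) ≤ -(24 * C₀ * l) := by
  have h : 12 * (3 + 24 * C₀) * l = 36 * l + 12 * (24 * C₀ * l) := by ring
  rw [h] at f7
  linarith

theorem N9_c {c CD E : ℝ} (hCD : 1 ≤ CD) (h : 10 ^ 200 * CD ≤ E) (hc : c ≤ 10 ^ 200) :
    c ≤ E := by
  have h1 : (0 : ℝ) ≤ 10 ^ 200 := by positivity
  have h2 : (10 : ℝ) ^ 200 * 1 ≤ 10 ^ 200 * CD := mul_le_mul_of_nonneg_left hCD h1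
  linarith

theorem N9_c' {CD E : ℝ} (hCD : 1 ≤ CD) (h : 10 ^ 200 * CD ≤ E) : CD * (4 * 512 ^ 8) ≤ E := by
  have h1 : (4 * 512 ^ 8 : ℝ) ≤ 10 ^ 200 := by norm_num
  have h2 : (4 * 512 ^ 8 : ℝ) * CD ≤ 10 ^ 200 * CD := mul_le_mul_of_nonneg_right h1 (by linarith)
  linarith

theorem p_N9 : S_N9 := by
  intro C₀ CD cA s hC hCD hcA hs
  set a : ℕ := 40 * cA ^ 2 with ha
  have ha1 : a ≠ 0 := by
    rw [ha]
    have : cA ≠ 0 := by omega
    positivity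
  filter_upwards [Filter.eventually_ge_atTop (100 + 24 * C₀), N9_ev (10 ^ 200 * CD) 0,
    N9_ev (1000 ^ 8) (8 * (s + 1)), N9_ev (12 * 14) (4 * a), N9_ev (12 * 4) (s + 3),
    N9_ev (12 * 6) 2, N9_ev 12 (s + 6), N9_ev (12 * (3 + 24 * C₀)) 1] with
    l hl f1 f2 f3 f4 f5 f6 f7 m Ya Yb N₁ hYa hYb hYa' hYb' hN
  have hl100 : 100 ≤ l := by linarith
  have hl0 : 0 < l := by linarith
  rw [pow_zero, mul_one] at f1
  rw [pow_one] at f7
  set v : ℝ := vv cA l with hv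
  have hva : v = l ^ a := rfl
  have hvl : l ≤ v := by
    rw [hva]
    exact le_self_pow₀ (by linarith) ha1
  have hv4 : v ^ 4 = l ^ (4 * a) := by rw [hva, ← pow_mul]; congr 1; ring
  have hQ3 : 3 ≤ qQ s l := by
    rw [qQ]
    have h1 := Real.add_one_le_exp (l ^ (s + 1))
    have h2 : l ≤ l ^ (s + 1) := le_self_pow₀ (by linarith) (by omega)
    linarith
  have hlog : Real.log (qQ s l) = l ^ (s + 1) := by rw [qQ, Real.log_exp]
  obtain ⟨b1, b2, -, b4, b5⟩ := N8_base hQ3 m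
  rw [hlog] at b2
  set V := VP (PQ (qQ s l) m) with hV
  set S := ∑ p ∈ PQ (qQ s l) m, 1 / (p : ℝ) with hS
  set Pr := ∏ p ∈ PQ (qQ s l) m, (1 + 8 / (p : ℝ)) with hPr
  have hS0 : 0 ≤ S := Finset.sum_nonneg fun p _ => by positivity
  have hPr0 : 0 ≤ Pr := Finset.prod_nonneg fun p _ => by positivity
  have hW : V ^ 8 ≤ Real.exp l := by
    refine le_trans (pow_le_pow_left₀ (by linarith) b2 8) (le_trans (le_of_eq ?_) f2)
    rw [mul_pow, ← pow_mul]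
    congr 2
    ring
  have hW1 : 1 ≤ V ^ 8 := one_le_pow₀ b1
  have hS8 : 8 * S ≤ l := by
    have h1 : 8 * Real.log V ≤ l := by
      have h2 : Real.log (V ^ 8) ≤ l := by
        rw [← Real.log_exp l]
        exact Real.log_le_log (by linarith) hW
      rw [Real.log_pow] at h2
      push_cast at h2
      exact h2
    linarith
  have hk : l ^ 2 ≤ ((qk l + 1 : ℕ) : ℝ) := by
    have := Nat.le_ceil (l ^ 2)
    rw [qk]
    push_cast
    linarith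
  have hqep : qep C₀ l ^ 8 = Real.exp (-(24 * C₀ * l)) / 512 ^ 8 := by
    rw [qep, div_pow, ← Real.exp_nat_mul]
    congr 2
    push_cast
    ring
  have hbig : ∀ c : ℝ, c * (4 * 512 ^ 8) ≤ 10 ^ 200 → c * (4 * 512 ^ 8) ≤ Real.exp l :=
    fun c hc => N9_c hCD f1 hc
  have hT2 : 2 * (8 * S) ^ (qk l + 1) / ((qk l + 1).factorial : ℝ) ≤
      2 * Real.exp (3 * l - l ^ 2) := by
    rw [mul_div_assoc]
    have h1 := N8_fac (x := 8 * S) (by positivity) (qk l + 1)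
    have h2 : Real.exp (3 * (8 * S) - ((qk l + 1 : ℕ) : ℝ)) ≤ Real.exp (3 * l - l ^ 2) :=
      Real.exp_le_exp.2 (by linarith)
    linarith
  have hT3 : 2 * (8 ^ 64 / Real.sqrt (qY v)) * Pr ≤
      2 * 8 ^ 64 * Real.exp (-(v ^ 5 / 2)) * Real.exp l := by
    have h1 : 8 ^ 64 / Real.sqrt (qY v) ≤ 8 ^ 64 * Real.exp (-(v ^ 5 / 2)) := by
      rw [Real.exp_neg, ← div_eq_mul_inv]
      exact div_le_div_of_nonneg_left (by positivity) (Real.exp_pos _) N9_Y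
    have h2 : Pr ≤ Real.exp l := b4.trans hW
    calc 2 * (8 ^ 64 / Real.sqrt (qY v)) * Pr
        ≤ 2 * (8 ^ 64 * Real.exp (-(v ^ 5 / 2))) * Real.exp l :=
          mul_le_mul (mul_le_mul_of_nonneg_left h1 (by norm_num)) h2 hPr0 (by positivity)
      _ = _ := by ring
  have hT4 : 4 * (qD s l : ℝ) * 8 ^ (qk l + 1) * (qD s l) / (qtau s l * N₁) ≤
      16 * Real.exp (4 * l ^ (s + 3) + 6 * l ^ 2 + l ^ (s + 6) - Real.exp l / 2) := by
    have h1 := N9_D (by linarith : 2 ≤ l) s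
    have h2 := N9_8 (by linarith : 2 ≤ l)
    have h3 : Real.exp (-(l ^ (s + 6))) * Real.exp (Real.exp l / 2) ≤ qtau s l * N₁ :=
      mul_le_mul_of_nonneg_left hN (Real.exp_pos _).le
    calc 4 * (qD s l : ℝ) * 8 ^ (qk l + 1) * (qD s l) / (qtau s l * N₁)
        ≤ 4 * (2 * Real.exp (2 * l ^ (s + 3))) * Real.exp (6 * l ^ 2) *
          (2 * Real.exp (2 * l ^ (s + 3))) /
          (Real.exp (-(l ^ (s + 6))) * Real.exp (Real.exp l / 2)) := by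
          gcongr
      _ = _ := by
          rw [sub_eq_add_neg, Real.exp_add, Real.exp_add, Real.exp_add, Real.exp_neg,
            Real.exp_neg, show 4 * l ^ (s + 3) = 2 * l ^ (s + 3) + 2 * l ^ (s + 3) by ring,
            Real.exp_add]
          field_simp
          ring
  have hCDexp : CD * (4 * 512 ^ 8) ≤ Real.exp l := N9_c' hCD f1
  have hQ0 : qQ0 C₀ l = Real.exp ((25 * C₀ + 1) * l) := rfl
  have hCl : 0 < C₀ * l := by positivity
  have hv30 : 30 ≤ v := by linarith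
  constructor
  · rw [hqep]
    refine N9_sum (l := l) (by linarith) hW (by positivity) hT2 (by positivity)
      (N9_U hv30 hYa hYb hYa' hYb') (by positivity) hT3 ?_ hT4 ?_ ?_ ?_ ?_
    · have : 0 < N₁ := lt_of_lt_of_le (Real.exp_pos _) hN
      rw [qtau]
      positivity
    · rw [hQ0, div_eq_mul_inv, ← Real.exp_neg]
      exact N9_piece hCDexp (N9_i1 hC hl0)
    · exact N9_piece (hbig _ (by norm_num)) (N9_i2 hC hl)
    · exact N9_piece (hbig _ (by norm_num)) (N9_i3 hC hl hvl)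
    · rw [← hv4] at f3
      exact N9_piece (hbig _ (by norm_num)) (N9_i4 hC (Real.exp_pos _) hl0 f3 f4 f5 f6 f7)
  · have h1 : (1 : ℝ) ≤ 4 * 512 ^ 8 := by norm_num
    have h2 : CD ≤ CD * (4 * 512 ^ 8) := le_mul_of_one_le_right (by linarith) h1
    refine le_trans h2 (le_trans hCDexp ?_)
    rw [hQ0]
    refine Real.exp_le_exp.2 ?_
    have h3 : (25 * C₀ + 1) * l = 25 * (C₀ * l) + l := by ring
    rw [h3]
    linarith

end Pool.Agent.APP
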