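import Pool.Agent.Lib.MP_8a4e59_co.G.Num

set_option autoImplicit false

/-!
(N6) of the assembly of `S_main` (MP_8a4e59_co), proved from elementary estimates.   (helper54)
-/

namespace Pool.Agent.APP

open Finset

theorem N6_ceil (x : ℝ) (hx : 0 ≤ x) : ((⌈Real.exp x⌉₊ : ℕ) : ℝ) ≤ Real.exp (x + 1) := by
  have h1 : ((⌈Real.exp x⌉₊ : ℕ) : ℝ) < Real.exp x + 1 := Nat.ceil_lt_add_one (Real.exp_pos x).le
  have h2 : 1 ≤ Real.exp x := Real.one_le_exp hx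
  have h3 : (2 : ℝ) ≤ Real.exp 1 := by
    have := Real.add_one_le_exp (1 : ℝ)
    linarith
  have h4 : Real.exp (x + 1) = Real.exp x * Real.exp 1 := Real.exp_add x 1
  nlinarith

theorem N6_vv (cA : ℕ) (l : ℝ) (hc : 1 ≤ cA) (hl : 1 ≤ l) : l ^ 40 ≤ vv cA l := by
  unfold vv
  apply pow_le_pow_right₀ hl
  nlinarith [Nat.pow_le_pow_left hc 2]

theorem N6_pow (Y J : ℕ) (x y : ℝ) (hY : (Y : ℝ) ≤ Real.exp x) (hx : 0 ≤ x) (hJ : (J : ℝ) ≤ y) :
    (Y : ℝ) ^ J ≤ Real.exp (x * y) := by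
  calc (Y : ℝ) ^ J ≤ (Real.exp x) ^ J := pow_le_pow_left₀ (Nat.cast_nonneg Y) hY J
    _ = Real.exp (J * x) := (Real.exp_nat_mul x J).symm
    _ ≤ Real.exp (x * y) := by
      apply Real.exp_le_exp.mpr
      nlinarith

/-- `v^5 + 1 ≤ exp (v^5)` and the crude bound `v ≤ exp v` -/
theorem N6_le_exp (x : ℝ) : x + 1 ≤ Real.exp x := Real.add_one_le_exp x

/-- cubic lower bound for the exponential -/
theorem N6_exp_cube (x : ℝ) (hx : 0 ≤ x) : x ^ 3 / 27 ≤ Real.exp x := by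
  have h1 : x / 3 ≤ Real.exp (x / 3) := by linarith [Real.add_one_le_exp (x / 3)]
  have h2 : (x / 3) ^ 3 ≤ (Real.exp (x / 3)) ^ 3 := pow_le_pow_left₀ (by positivity) h1 3
  have h3 : (Real.exp (x / 3)) ^ 3 = Real.exp x := by
    rw [← Real.exp_nat_mul]
    congr 1
    push_cast
    ring
  rw [h3] at h2
  calc x ^ 3 / 27 = (x / 3) ^ 3 := by ring
    _ ≤ _ := h2

/-- the first inequality -/
theorem N6_first (v : ℝ) (hv : 100 ≤ v) (R K : ℕ) (hR : (R : ℝ) + 1 ≤ v) (hK : 1 ≤ K)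
    (hK3 : (K : ℝ) ≤ Real.exp (3 * v)) :
    (2 * qJq v * max (qr v * (K - 1)) (qrs v * (qKs v - 1)) + 1) ^ (R + 1) < 2 ^ (qJq v) := by
  have hv0 : (0 : ℝ) ≤ v := by linarith
  have hv1 : (1 : ℝ) ≤ v := by linarith
  have hJq : ((qJq v : ℕ) : ℝ) ≤ v ^ 5 + 1 := (Nat.ceil_lt_add_one (by positivity)).le
  have hJq' : v ^ 5 ≤ ((qJq v : ℕ) : ℝ) := Nat.le_ceil _
  have hr : ((qr v : ℕ) : ℝ) ≤ v ^ 3 + 1 := (Nat.ceil_lt_add_one (by positivity)).le
  have hrs : ((qrs v : ℕ) : ℝ) ≤ v ^ 5 + 1 := (Nat.ceil_lt_add_one (by positivity)).le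
  have hKs : ((qKs v : ℕ) : ℝ) ≤ Real.exp (v ^ 3) + 1 := (Nat.ceil_lt_add_one (Real.exp_pos _).le).le
  have hKs1 : 1 ≤ qKs v := by
    unfold qKs
    rw [Nat.one_le_ceil_iff]
    positivity
  have p35 : v ^ 3 ≤ v ^ 5 := pow_le_pow_right₀ hv1 (by norm_num)
  have p3 : 3 * v ≤ v ^ 3 := by
    have : v ^ 3 = v * (v * v) := by ring
    nlinarith
  set H := max (qr v * (K - 1)) (qrs v * (qKs v - 1)) with hHd
  have hH : (H : ℝ) ≤ (v ^ 5 + 1) * Real.exp (v ^ 3) := by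
    rw [hHd, Nat.cast_max]
    apply max_le
    · rw [Nat.cast_mul, Nat.cast_sub hK, Nat.cast_one]
      apply mul_le_mul
      · linarith
      · calc (K : ℝ) - 1 ≤ K := by linarith
          _ ≤ Real.exp (3 * v) := hK3
          _ ≤ Real.exp (v ^ 3) := Real.exp_le_exp.mpr p3
      · have : (1 : ℝ) ≤ K := by exact_mod_cast hK
        linarith
      · positivity
    · rw [Nat.cast_mul, Nat.cast_sub hKs1, Nat.cast_one]
      apply mul_le_mul hrs
      · linarith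
      · have : (1 : ℝ) ≤ qKs v := by exact_mod_cast hKs1
        linarith
      · positivity
  have hexp1 : (1 : ℝ) ≤ Real.exp (v ^ 3) := Real.one_le_exp (by positivity)
  have hbase : ((2 * qJq v * H + 1 : ℕ) : ℝ) ≤ Real.exp (2 * v ^ 3) := by
    push_cast
    have h1 : 2 * ((qJq v : ℕ) : ℝ) * (H : ℝ) ≤ 2 * (v ^ 5 + 1) * ((v ^ 5 + 1) * Real.exp (v ^ 3)) := by
      apply mul_le_mul _ hH (by positivity) (by positivity)
      linarith
    have h2 : 2 * (v ^ 5 + 1) * ((v ^ 5 + 1) * Real.exp (v ^ 3)) + 1 ≤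
        (2 * (v ^ 5 + 1) ^ 2 + 1) * Real.exp (v ^ 3) := by nlinarith
    have h3 : 2 * (v ^ 5 + 1) ^ 2 + 1 ≤ Real.exp (v ^ 3) := by
      have c1 := N6_exp_cube (v ^ 3) (by positivity)
      -- c1 : exp (v^3) ≥ v^9/27 is not enough: use the square root first
      have c2 := N6_exp_cube (v ^ 3 / 2) (by positivity)
      have c3 : Real.exp (v ^ 3) = Real.exp (v ^ 3 / 2) * Real.exp (v ^ 3 / 2) := by
        rw [← Real.exp_add]
        congr 1
        ring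
      have c4 : (v ^ 3 / 2) ^ 3 / 27 * ((v ^ 3 / 2) ^ 3 / 27) ≤ Real.exp (v ^ 3) := by
        rw [c3]
        exact mul_le_mul c2 c2 (by positivity) (by positivity)
      have c5 : (v ^ 3 / 2) ^ 3 / 27 * ((v ^ 3 / 2) ^ 3 / 27) = v ^ 18 / 46656 := by ring
      rw [c5] at c4
      have c6 : v ^ 5 ≤ v ^ 10 := pow_le_pow_right₀ hv1 (by norm_num)
      have c7 : (1 : ℝ) ≤ v ^ 10 := one_le_pow₀ hv1
      have c8 : 2 * (v ^ 5 + 1) ^ 2 + 1 ≤ 9 * v ^ 10 := by nlinarith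
      have c9 : (100 : ℝ) ^ 8 ≤ v ^ 8 := pow_le_pow_left₀ (by norm_num) hv 8
      have c10 : v ^ 18 = v ^ 10 * v ^ 8 := by ring
      have c11 : (100 : ℝ) ^ 8 * v ^ 10 ≤ v ^ 18 := by
        rw [c10]
        nlinarith
      nlinarith
    calc 2 * ((qJq v : ℕ) : ℝ) * (H : ℝ) + 1
        ≤ (2 * (v ^ 5 + 1) ^ 2 + 1) * Real.exp (v ^ 3) := by linarith
      _ ≤ Real.exp (v ^ 3) * Real.exp (v ^ 3) := mul_le_mul_of_nonneg_right h3 (by positivity)
      _ = Real.exp (2 * v ^ 3) := by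
        rw [← Real.exp_add]
        congr 1
        ring
  have hR' : ((R + 1 : ℕ) : ℝ) ≤ v := by
    push_cast
    exact hR
  have hpow := N6_pow (2 * qJq v * H + 1) (R + 1) (2 * v ^ 3) v hbase (by positivity) hR'
  have hlow : Real.exp (v ^ 5 / 2) ≤ (2 : ℝ) ^ (qJq v) := by
    have e1 : Real.exp (1 / 2) ≤ 2 := by
      have h := Real.exp_one_lt_d9
      have h2 : Real.exp (1 / 2) * Real.exp (1 / 2) = Real.exp 1 := by
        rw [← Real.exp_add]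
        norm_num
      have h3 : 0 < Real.exp (1 / 2) := Real.exp_pos _
      nlinarith
    calc Real.exp (v ^ 5 / 2) ≤ Real.exp ((qJq v : ℕ) * (1 / 2)) := by
          apply Real.exp_le_exp.mpr
          linarith
      _ = (Real.exp (1 / 2)) ^ (qJq v) := Real.exp_nat_mul _ _
      _ ≤ (2 : ℝ) ^ (qJq v) := pow_le_pow_left₀ (Real.exp_pos _).le e1 _
  have hlt : Real.exp (2 * v ^ 3 * v) < Real.exp (v ^ 5 / 2) := by
    apply Real.exp_lt_exp.mpr
    have : v ^ 5 = v ^ 4 * v := by ring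
    have h4 : 2 * v ^ 3 * v = 2 * v ^ 4 := by ring
    have h5 : 0 < v ^ 4 := by positivity
    rw [h4, this]
    nlinarith
  have hreal : (((2 * qJq v * H + 1) ^ (R + 1) : ℕ) : ℝ) < ((2 ^ (qJq v) : ℕ) : ℝ) := by
    rw [Nat.cast_pow, Nat.cast_pow, Nat.cast_ofNat]
    exact lt_of_le_of_lt hpow (lt_of_lt_of_le hlt hlow)
  exact_mod_cast hreal

theorem p_N6 : S_N6 := by
  intro cA s hA hs
  filter_upwards [Filter.eventually_ge_atTop (100 : ℝ)] with l hl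
  intro R K hR hK hK3
  have hl1 : (1 : ℝ) ≤ l := by linarith
  have hl0 : (0 : ℝ) ≤ l := by linarith
  have hv40 := N6_vv cA l hA hl1
  have hl40 : l ≤ l ^ 40 := by
    calc l = l ^ 1 := (pow_one l).symm
      _ ≤ l ^ 40 := pow_le_pow_right₀ hl1 (by norm_num)
  have hls : vv cA l ^ 13 ≤ l ^ (s + 6) := by
    unfold vv
    rw [← pow_mul]
    apply pow_le_pow_right₀ hl1
    linarith
  set v := vv cA l with hv
  have hv100 : (100 : ℝ) ≤ v := by linarith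
  have hv1 : (1 : ℝ) ≤ v := by linarith
  have hv0 : (0 : ℝ) ≤ v := by linarith
  refine ⟨N6_first v hv100 R K hR hK hK3, ?_, ?_, ?_, ?_⟩
  · have hYe : ((qY v : ℕ) : ℝ) ≤ Real.exp (v ^ 5 + 1) := N6_ceil _ (by positivity)
    have hJq : ((qJq v : ℕ) : ℝ) ≤ v ^ 5 + 1 := (Nat.ceil_lt_add_one (by positivity)).le
    have hYJ : ((qY v : ℕ) : ℝ) ^ (qJq v) ≤ Real.exp ((v ^ 5 + 1) * (v ^ 5 + 1)) :=
      N6_pow _ _ _ _ hYe (by positivity) hJq
    have hJe : ((qJq v : ℕ) : ℝ) ≤ Real.exp (v ^ 5) := hJq.trans (N6_le_exp _)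
    have hmul : ((qJq v : ℕ) : ℝ) * qtau s l * ((qY v : ℕ) : ℝ) ^ (qJq v) ≤
        Real.exp (v ^ 5) * Real.exp (-(l ^ (s + 6))) * Real.exp ((v ^ 5 + 1) * (v ^ 5 + 1)) := by
      unfold qtau
      apply mul_le_mul _ hYJ (by positivity) (by positivity)
      exact mul_le_mul_of_nonneg_right hJe (by positivity)
    refine lt_of_le_of_lt hmul ?_
    rw [← Real.exp_add, ← Real.exp_add, Real.exp_lt_one_iff]
    have p5 : v ^ 5 ≤ v ^ 10 := pow_le_pow_right₀ hv1 (by norm_num)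
    have p0 : 1 ≤ v ^ 10 := one_le_pow₀ hv1
    have p13 : 100 * v ^ 10 ≤ v ^ 13 := by
      have h1 : v ^ 13 = v ^ 3 * v ^ 10 := by ring
      have h2 : v ≤ v ^ 3 := by
        calc v = v ^ 1 := (pow_one v).symm
          _ ≤ v ^ 3 := pow_le_pow_right₀ hv1 (by norm_num)
      rw [h1]
      apply mul_le_mul_of_nonneg_right (by linarith) (by positivity)
    have hexp : (v ^ 5 + 1) * (v ^ 5 + 1) = v ^ 10 + 2 * v ^ 5 + 1 := by ring
    linarith
  · have hk : ((qk l : ℕ) : ℝ) ≤ l ^ 2 + 1 := (Nat.ceil_lt_add_one (by positivity)).le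
    have hpow : qQ s l ^ (qk l + 1) = Real.exp (((qk l + 1 : ℕ) : ℝ) * l ^ (s + 1)) :=
      (Real.exp_nat_mul _ _).symm
    have hD : (qD s l : ℝ) ≤ Real.exp (((qk l + 1 : ℕ) : ℝ) * l ^ (s + 1) + 1) := by
      unfold qD
      rw [hpow]
      exact N6_ceil _ (by positivity)
    have h2e : (2 : ℝ) ≤ Real.exp 1 := by linarith [Real.add_one_le_exp (1 : ℝ)]
    have hD2 : (qD s l : ℝ) ^ 2 ≤ (Real.exp (((qk l + 1 : ℕ) : ℝ) * l ^ (s + 1) + 1)) ^ 2 :=
      pow_le_pow_left₀ (Nat.cast_nonneg _) hD 2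
    have hmul : 2 * qtau s l * (qD s l : ℝ) ^ 2 ≤ Real.exp 1 * Real.exp (-(l ^ (s + 6))) *
        (Real.exp (((qk l + 1 : ℕ) : ℝ) * l ^ (s + 1) + 1)) ^ 2 := by
      unfold qtau
      apply mul_le_mul _ hD2 (by positivity) (by positivity)
      exact mul_le_mul_of_nonneg_right h2e (by positivity)
    refine lt_of_le_of_lt hmul ?_
    rw [← Real.exp_nat_mul, ← Real.exp_add, ← Real.exp_add, Real.exp_lt_one_iff]
    push_cast
    have hX1 : (1 : ℝ) ≤ l ^ (s + 1) := one_le_pow₀ hl1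
    have hX6 : l ^ (s + 6) = l ^ (s + 1) * l ^ 5 := by ring
    have hl5 : l ^ 5 = l ^ 2 * l ^ 3 := by ring
    have hl3 : (100 : ℝ) ≤ l ^ 3 := by
      have : l ≤ l ^ 3 := by
        calc l = l ^ 1 := (pow_one l).symm
          _ ≤ l ^ 3 := pow_le_pow_right₀ hl1 (by norm_num)
      linarith
    have hl2 : (1 : ℝ) ≤ l ^ 2 := one_le_pow₀ hl1
    have h1 : 100 * l ^ 2 ≤ l ^ 5 := by
      rw [hl5]
      nlinarith
    have h2 : (((qk l : ℕ) : ℝ) + 1) * l ^ (s + 1) ≤ (l ^ 2 + 2) * l ^ (s + 1) :=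
      mul_le_mul_of_nonneg_right (by linarith) (by positivity)
    have h3 : l ^ (s + 1) * (100 * l ^ 2) ≤ l ^ (s + 1) * l ^ 5 := mul_le_mul_of_nonneg_left h1 (by positivity)
    have h4 : l ^ (s + 1) * 1 ≤ l ^ (s + 1) * l ^ 2 := mul_le_mul_of_nonneg_left hl2 (by positivity)
    rw [hX6]
    nlinarith
  · unfold qY
    rw [Nat.one_le_ceil_iff]
    positivity
  · unfold qD qQ
    rw [Nat.one_le_ceil_iff]
    positivity

end Pool.Agent.APP
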